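import Mathlib

/-!
# Basic facts on branch sets, grids and connectivity (for MP_69d199_co)
-/

namespace TH691.GM

open Relation

/-- one step of the relation `R` inside the set `S` -/
def RIn {α : Type*} (R : α → α → Prop) (S : Set α) (a b : α) : Prop := a ∈ S ∧ b ∈ S ∧ R a b

/-- `S` is nonempty and connected for `R` -/
def Cn {α : Type*} (R : α → α → Prop) (S : Set α) : Prop :=
  S.Nonempty ∧ ∀ x ∈ S, ∀ y ∈ S, ReflTransGen (RIn R S) x y

lemma RTG_mono {α : Type*} {R : α → α → Prop} {S T : Set α} (h : S ⊆ T) {a b : α}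
    (hab : ReflTransGen (RIn R S) a b) : ReflTransGen (RIn R T) a b := by
  induction hab with
  | refl => exact ReflTransGen.refl
  | tail _ hbc ih => exact ih.tail ⟨h hbc.1, h hbc.2.1, hbc.2.2⟩

lemma RTG_symm {α : Type*} {R : α → α → Prop} (hs : ∀ a b, R a b → R b a) {S : Set α} {a b : α}
    (hab : ReflTransGen (RIn R S) a b) : ReflTransGen (RIn R S) b a := by
  induction hab with
  | refl => exact ReflTransGen.refl
  | tail _ hbc ih => exact ReflTransGen.head ⟨hbc.2.1, hbc.1, hs _ _ hbc.2.2⟩ ih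

lemma Cn_of_base {α : Type*} {R : α → α → Prop} (hs : ∀ a b, R a b → R b a) {S : Set α} {b : α}
    (hb : b ∈ S) (h : ∀ x ∈ S, ReflTransGen (RIn R S) b x) : Cn R S :=
  ⟨⟨b, hb⟩, fun x hx y hy => (RTG_symm hs (h x hx)).trans (h y hy)⟩

lemma bigU {α β : Type*} {R : α → α → Prop} {R' : β → β → Prop} {S : Set α} (hS : Cn R S)
    {F : α → Set β} (hF : ∀ a ∈ S, Cn R' (F a))
    (hadj : ∀ a ∈ S, ∀ b ∈ S, R a b → ∃ x ∈ F a, ∃ y ∈ F b, R' x y) :
    Cn R' (⋃ a ∈ S, F a) := by
  have hsub : ∀ a ∈ S, F a ⊆ ⋃ a ∈ S, F a := fun a ha x hx => by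
    simp only [Set.mem_iUnion]; exact ⟨a, ha, hx⟩
  constructor
  · obtain ⟨a, ha⟩ := hS.1
    obtain ⟨x, hx⟩ := (hF a ha).1
    exact ⟨x, hsub a ha hx⟩
  · intro x hx y hy
    simp only [Set.mem_iUnion] at hx hy
    obtain ⟨a, ha, hxa⟩ := hx
    obtain ⟨b, hb, hyb⟩ := hy
    have key : ∀ b, ReflTransGen (RIn R S) a b → b ∈ S → ∀ y ∈ F b,
        ReflTransGen (RIn R' (⋃ a ∈ S, F a)) x y := by
      intro b hab
      induction hab with
      | refl =>
        intro _ y hy
        exact RTG_mono (hsub a ha) ((hF a ha).2 x hxa y hy)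
      | tail hab hbc ih =>
        rename_i b c
        intro hc y hy
        obtain ⟨u, hu, v, hv, huv⟩ := hadj b hbc.1 c hc hbc.2.2
        have h1 := ih hbc.1 u hu
        have h2 : RIn R' (⋃ a ∈ S, F a) u v := ⟨hsub b hbc.1 hu, hsub c hc hv, huv⟩
        have h3 := RTG_mono (hsub c hc) ((hF c hc).2 v hv y hy)
        exact (h1.tail h2).trans h3
    exact key b (hS.2 a ha b hb) hb y hyb

lemma connected_iff_Cn {V : Type*} (G : SimpleGraph V) (S : Set V) :
    (G.induce S).Connected ↔ Cn G.Adj S := by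
  constructor
  · intro h
    constructor
    · obtain ⟨x⟩ := h.nonempty
      exact ⟨x.1, x.2⟩
    · intro x hx y hy
      have h1 := h.preconnected ⟨x, hx⟩ ⟨y, hy⟩
      rw [SimpleGraph.reachable_iff_reflTransGen] at h1
      have key : ∀ y' : S, ReflTransGen (G.induce S).Adj ⟨x, hx⟩ y' →
          ReflTransGen (RIn G.Adj S) x y'.1 := by
        intro y' hy'
        induction hy' with
        | refl => exact ReflTransGen.refl
        | tail _ hbc ih => exact ih.tail ⟨Subtype.property _, Subtype.property _, hbc⟩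
      exact key ⟨y, hy⟩ h1
  · intro h
    obtain ⟨x0, hx0⟩ := h.1
    have : Nonempty S := ⟨⟨x0, hx0⟩⟩
    refine ⟨fun x y => ?_⟩
    have h1 := h.2 x.1 x.2 y.1 y.2
    have key : ∀ y, ReflTransGen (RIn G.Adj S) x.1 y → ∀ hy : y ∈ S,
        (G.induce S).Reachable x ⟨y, hy⟩ := by
      intro y hxy
      induction hxy with
      | refl => intro _; exact SimpleGraph.Reachable.refl _
      | tail hab hbc ih =>
        rename_i b c
        intro hc
        have h1 := ih hbc.1
        have h2 : (G.induce S).Adj ⟨b, hbc.1⟩ ⟨c, hc⟩ := hbc.2.2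
        exact h1.trans h2.reachable
    exact key y.1 h1 y.2

lemma walk_RTG {V : Type*} {G : SimpleGraph V} {u v : V} (w : G.Walk u v) {S : Set V}
    (h : ∀ x ∈ w.support, x ∈ S) : ∀ x ∈ w.support, ReflTransGen (RIn G.Adj S) u x := by
  induction w with
  | nil =>
    intro x hx
    simp only [SimpleGraph.Walk.support_nil, List.mem_singleton] at hx
    subst hx
    exact ReflTransGen.refl
  | cons hadj p ih =>
    intro x hx
    simp only [SimpleGraph.Walk.support_cons, List.mem_cons] at hx h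
    rcases hx with rfl | hx
    · exact ReflTransGen.refl
    · have h1 := ih (fun y hy => h y (Or.inr hy)) x hx
      exact ReflTransGen.head ⟨h _ (Or.inl rfl), h _ (Or.inr p.start_mem_support), hadj⟩ h1

/-- the neighbour relation of the infinite grid `ℕ × ℕ` -/
def gadj (p q : ℕ × ℕ) : Prop :=
  (p.1 = q.1 ∧ (p.2 + 1 = q.2 ∨ q.2 + 1 = p.2)) ∨ (p.2 = q.2 ∧ (p.1 + 1 = q.1 ∨ q.1 + 1 = p.1))

lemma gadj_symm (p q : ℕ × ℕ) (h : gadj p q) : gadj q p := by
  unfold gadj at *
  omega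

lemma seg_up {S : Set (ℕ × ℕ)} (x y d : ℕ) (h : ∀ u, y ≤ u → u ≤ y + d → (x, u) ∈ S) :
    ReflTransGen (RIn gadj S) (x, y) (x, y + d) := by
  induction d with
  | zero => exact ReflTransGen.refl
  | succ d ih =>
    refine (ih (fun u h1 h2 => h u h1 (by omega))).tail ?_
    exact ⟨h _ (by omega) (by omega), h _ (by omega) (by omega), Or.inl ⟨rfl, Or.inl rfl⟩⟩

lemma seg_right {S : Set (ℕ × ℕ)} (x y d : ℕ) (h : ∀ u, x ≤ u → u ≤ x + d → (u, y) ∈ S) :
    ReflTransGen (RIn gadj S) (x, y) (x + d, y) := by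
  induction d with
  | zero => exact ReflTransGen.refl
  | succ d ih =>
    refine (ih (fun u h1 h2 => h u h1 (by omega))).tail ?_
    exact ⟨h _ (by omega) (by omega), h _ (by omega) (by omega), Or.inr ⟨rfl, Or.inl rfl⟩⟩

lemma seg_up' {S : Set (ℕ × ℕ)} (x y y' : ℕ) (hy : y ≤ y')
    (h : ∀ u, y ≤ u → u ≤ y' → (x, u) ∈ S) :
    ReflTransGen (RIn gadj S) (x, y) (x, y') := by
  obtain ⟨d, rfl⟩ := Nat.exists_eq_add_of_le hy
  exact seg_up x y d h

lemma seg_down' {S : Set (ℕ × ℕ)} (x y y' : ℕ) (hy : y' ≤ y)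
    (h : ∀ u, y' ≤ u → u ≤ y → (x, u) ∈ S) :
    ReflTransGen (RIn gadj S) (x, y) (x, y') :=
  RTG_symm gadj_symm (seg_up' x y' y hy h)

lemma seg_right' {S : Set (ℕ × ℕ)} (x x' y : ℕ) (hx : x ≤ x')
    (h : ∀ u, x ≤ u → u ≤ x' → (u, y) ∈ S) :
    ReflTransGen (RIn gadj S) (x, y) (x', y) := by
  obtain ⟨d, rfl⟩ := Nat.exists_eq_add_of_le hx
  exact seg_right x y d h

lemma seg_left' {S : Set (ℕ × ℕ)} (x x' y : ℕ) (hx : x' ≤ x)
    (h : ∀ u, x' ≤ u → u ≤ x → (u, y) ∈ S) :
    ReflTransGen (RIn gadj S) (x, y) (x', y) :=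
  RTG_symm gadj_symm (seg_right' x' x y hx h)

/-- Counting full blocks: the blocks `[k L, k L + L)` contained in `Y`. -/
lemma full_blocks (Y : Finset ℕ) (L M : ℕ) :
    ((Finset.range M).filter (fun k => ∀ d < L, k * L + d ∈ Y)).card * L ≤ Y.card := by
  classical
  rw [← Finset.card_range L, ← Finset.card_product]
  refine Finset.card_le_card_of_injOn (fun kd => kd.1 * L + kd.2) ?_ ?_
  · intro kd hkd
    simp only [Finset.coe_product, Set.mem_prod, Finset.mem_coe, Finset.mem_filter,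
      Finset.mem_range, Finset.card_range] at hkd ⊢
    exact hkd.1.2 _ hkd.2
  · intro a ha a' ha' h
    simp only [Finset.coe_product, Set.mem_prod, Finset.mem_coe, Finset.mem_filter,
      Finset.mem_range, Finset.card_range] at ha ha' h
    have hL : 0 < L := by omega
    have h1 : (a.1 * L + a.2) / L = a.1 := by
      rw [Nat.mul_comm, Nat.mul_add_div hL, Nat.div_eq_of_lt ha.2, Nat.add_zero]
    have h1' : (a'.1 * L + a'.2) / L = a'.1 := by
      rw [Nat.mul_comm, Nat.mul_add_div hL, Nat.div_eq_of_lt ha'.2, Nat.add_zero]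
    have e1 : a.1 = a'.1 := by rw [← h1, ← h1', h]
    have e2 : a.2 = a'.2 := by rw [e1] at h; omega
    exact Prod.ext e1 e2

end TH691.GM
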