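import Pool.Agent.TH691.GM.Spine

/-!
# Straight-line plane drawings give sweeps (for MP_69d199_co)
-/

namespace TH691.GM

/-- `K` has a straight-line drawing in the plane: the vertices are distinct points, no vertex lies
in the interior of an edge, and the interiors of distinct edges are disjoint. By Fáry's theorem the
finite graphs with such a drawing are exactly the finite planar graphs. -/
def StraightLinePlanar {W : Type*} (K : SimpleGraph W) : Prop :=
  ∃ f : W → ℝ × ℝ, Function.Injective f ∧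
    (∀ u v w, K.Adj u v → f w ∉ openSegment ℝ (f u) (f v)) ∧
    ∀ u v u' v', K.Adj u v → K.Adj u' v' → s(u, v) ≠ s(u', v') →
      Disjoint (openSegment ℝ (f u) (f v)) (openSegment ℝ (f u') (f v'))

/-- abscissa at height `h` of the line through `f w` and `f u` -/
noncomputable def XX {W : Type*} (f : W → ℝ × ℝ) (w u : W) (h : ℝ) : ℝ :=
  (f w).1 + (h - (f w).2) / ((f u).2 - (f w).2) * ((f u).1 - (f w).1)

lemma XX_start {W : Type*} (f : W → ℝ × ℝ) (w u : W) : XX f w u (f w).2 = (f w).1 := by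
  unfold XX; simp

lemma XX_end {W : Type*} (f : W → ℝ × ℝ) (w u : W) (h : (f w).2 < (f u).2) :
    XX f w u (f u).2 = (f u).1 := by
  unfold XX
  have : (f u).2 - (f w).2 ≠ 0 := by linarith
  field_simp
  ring

lemma XX_affine {W : Type*} (f : W → ℝ × ℝ) (w u : W) (h h1 t : ℝ) :
    XX f w u (h + t * (h1 - h)) = XX f w u h + t * (XX f w u h1 - XX f w u h) := by
  unfold XX
  ring

lemma mem_open {W : Type*} (f : W → ℝ × ℝ) (w u : W) (h : ℝ) (h1 : (f w).2 < h) (h2 : h < (f u).2) :
    (XX f w u h, h) ∈ openSegment ℝ (f w) (f u) := by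
  have h0 : 0 < (f u).2 - (f w).2 := by linarith
  refine ⟨1 - (h - (f w).2) / ((f u).2 - (f w).2), (h - (f w).2) / ((f u).2 - (f w).2), ?_, ?_, ?_, ?_⟩
  · rw [sub_pos, div_lt_one h0]; linarith
  · exact div_pos (by linarith) h0
  · ring
  · have hne : (f u).2 - (f w).2 ≠ 0 := h0.ne'
    ext
    · simp only [Prod.smul_fst, Prod.fst_add, smul_eq_mul]
      unfold XX
      ring
    · simp only [Prod.smul_snd, Prod.snd_add, smul_eq_mul]
      field_simp
      ring

/-- the relation of lying to the left, for edges -/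
def prec {W : Type*} (f : W → ℝ × ℝ) (w u w' u' : W) : Prop :=
  ∀ h, (f w).2 < h → (f w').2 < h → h < (f u).2 → h < (f u').2 → XX f w u h < XX f w' u' h

lemma prec_of {W : Type*} {K : SimpleGraph W} {f : W → ℝ × ℝ}
    (hd : ∀ u v u' v', K.Adj u v → K.Adj u' v' → s(u, v) ≠ s(u', v') →
      Disjoint (openSegment ℝ (f u) (f v)) (openSegment ℝ (f u') (f v')))
    {w u w' u' : W} (ha : K.Adj w u) (ha' : K.Adj w' u') (hne : s(w, u) ≠ s(w', u')) (h1 : ℝ)
    (a1 : (f w).2 ≤ h1) (a2 : (f w').2 ≤ h1) (a3 : h1 ≤ (f u).2) (a4 : h1 ≤ (f u').2)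
    (hlt : XX f w u h1 < XX f w' u' h1) : prec f w u w' u' := by
  intro h b1 b2 b3 b4
  by_contra hcon
  push Not at hcon
  set d1 := XX f w' u' h1 - XX f w u h1 with hd1
  set d := XX f w' u' h - XX f w u h with hdd
  have p1 : 0 < d1 := by rw [hd1]; linarith
  have p2 : d ≤ 0 := by rw [hdd]; linarith
  set t := (-d) / (d1 - d) with ht
  have ht0 : 0 ≤ t := div_nonneg (by linarith) (by linarith)
  have ht1 : t < 1 := by rw [ht, div_lt_one (by linarith)]; linarith
  have htd : d + t * (d1 - d) = 0 := by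
    rw [ht]
    have : d1 - d ≠ 0 := by linarith
    field_simp
    ring
  set h0 := h + t * (h1 - h) with hh0
  have e1 : (f w).2 < h0 := by
    rw [hh0]; nlinarith
  have e2 : (f w').2 < h0 := by
    rw [hh0]; nlinarith
  have e3 : h0 < (f u).2 := by
    rw [hh0]; nlinarith
  have e4 : h0 < (f u').2 := by
    rw [hh0]; nlinarith
  have q1 := mem_open f w u h0 e1 e3
  have q2 := mem_open f w' u' h0 e2 e4
  have q3 : XX f w u h0 = XX f w' u' h0 := by
    rw [hh0, XX_affine, XX_affine]
    rw [hd1, hdd] at htd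
    linarith
  rw [q3] at q1
  exact Set.disjoint_left.mp (hd w u w' u' ha ha' hne) q1 q2

/-- a drawing with distinct heights gives a sweep -/
noncomputable def sweepOf {W : Type*} {K : SimpleGraph W} (f : W → ℝ × ℝ)
    (hinj : Function.Injective fun w => (f w).2)
    (hv : ∀ u v w, K.Adj u v → f w ∉ openSegment ℝ (f u) (f v))
    (hd : ∀ u v u' v', K.Adj u v → K.Adj u' v' → s(u, v) ≠ s(u', v') →
      Disjoint (openSegment ℝ (f u) (f v)) (openSegment ℝ (f u') (f v'))) : Sweep K where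
  y := fun w => (f w).2
  inj := hinj
  prec := prec f
  lf := fun w u v => XX f w u (f v).2 < (f v).1
  H1 := by
    intro w u v w' ha h1 h2 ha' h1' hl
    refine prec_of hd ha ha' ?_ (f v).2 h1.le h1'.le h2.le le_rfl ?_
    · intro h
      rw [Sym2.eq_iff] at h
      rcases h with ⟨rfl, rfl⟩ | ⟨rfl, rfl⟩
      · exact lt_irrefl _ h2
      · exact lt_irrefl _ h1
    · rw [XX_end f w' v h1']; exact hl
  H2 := by
    intro w u v w' ha h1 h2 ha' h1' hl
    have hl' : (f v).1 < XX f w u (f v).2 := by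
      refine lt_of_le_of_ne (not_lt.mp hl) (fun h => hv w u v ha ?_)
      have := mem_open f w u (f v).2 h1 h2
      rw [← h] at this
      exact this
    refine prec_of hd ha' ha ?_ (f v).2 h1'.le h1.le le_rfl h2.le ?_
    · intro h
      rw [Sym2.eq_iff] at h
      rcases h with ⟨rfl, rfl⟩ | ⟨rfl, rfl⟩
      · exact lt_irrefl _ h2
      · exact lt_irrefl _ h1
    · rw [XX_end f w' v h1']; exact hl'
  H3 := by
    intro w u w' u' v ha h1 h2 ha' h1' h2' hl hl'
    refine prec_of hd ha ha' ?_ (f v).2 h1.le h1'.le h2.le h2'.le ?_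
    · intro h
      rw [Sym2.eq_iff] at h
      rcases h with ⟨rfl, rfl⟩ | ⟨rfl, rfl⟩
      · exact hl' hl
      · exact lt_asymm h1 h2'
    · have hl'' := not_lt.mp hl'
      exact lt_of_lt_of_le hl hl''
  H5 := by
    intro w u w' u' v ha h1 h2 ha' h1' h2' hp hl
    have := hp (f v).2 h1 h1' h2 h2'
    have hl' := not_lt.mp hl
    exact not_lt.mpr (hl'.trans this.le)
  H6 := by
    intro w u v u' ha h1 h2 ha' h2' hp
    by_contra hl
    have hl' : (f v).1 < XX f w u (f v).2 := by
      refine lt_of_le_of_ne (not_lt.mp hl) (fun h => hv w u v ha ?_)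
      have := mem_open f w u (f v).2 h1 h2
      rw [← h] at this
      exact this
    have hp' : prec f v u' w u := by
      refine prec_of hd ha' ha ?_ (f v).2 le_rfl h1.le h2'.le h2.le ?_
      · intro h
        rw [Sym2.eq_iff] at h
        rcases h with ⟨rfl, rfl⟩ | ⟨rfl, rfl⟩
        · exact lt_irrefl _ h1
        · exact lt_irrefl _ h2
      · rw [XX_start]; exact hl'
    obtain ⟨h, hh1, hh2⟩ := exists_between (lt_min h2 h2')
    rw [lt_min_iff] at hh2
    exact lt_asymm (hp h (h1.trans hh1) hh1 hh2.1 hh2.2) (hp' h hh1 (h1.trans hh1) hh2.2 hh2.1)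
  H7 := by
    intro w u v u' ha h1 h2 ha' h2' hp hl
    have hp' : prec f w u v u' := by
      refine prec_of hd ha ha' ?_ (f v).2 h1.le le_rfl h2.le h2'.le ?_
      · intro h
        rw [Sym2.eq_iff] at h
        rcases h with ⟨rfl, rfl⟩ | ⟨rfl, rfl⟩
        · exact lt_irrefl _ h1
        · exact lt_irrefl _ h2
      · rw [XX_start]; exact hl
    obtain ⟨h, hh1, hh2⟩ := exists_between (lt_min h2 h2')
    rw [lt_min_iff] at hh2
    exact lt_asymm (hp h hh1 (h1.trans hh1) hh2.2 hh2.1) (hp' h (h1.trans hh1) hh1 hh2.1 hh2.2)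

/-- a shear of the plane -/
def shear (ε : ℝ) : (ℝ × ℝ) →ₗ[ℝ] (ℝ × ℝ) where
  toFun p := (p.1, p.2 + ε * p.1)
  map_add' p q := by ext <;> simp; ring
  map_smul' c p := by ext <;> simp; ring

lemma shear_inj (ε : ℝ) : Function.Injective (shear ε) := by
  rintro ⟨a, b⟩ ⟨c, d⟩ h
  have h1 : a = c := congrArg Prod.fst h
  have h2 : b + ε * a = d + ε * c := congrArg Prod.snd h
  subst h1
  ext
  · rfl
  · show b = d
    linarith

lemma shear_open (ε : ℝ) (a b : ℝ × ℝ) :
    ∀ z ∈ openSegment ℝ (shear ε a) (shear ε b), ∃ z' ∈ openSegment ℝ a b, shear ε z' = z := by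
  rintro z ⟨s, t, hs, ht, hst, rfl⟩
  exact ⟨s • a + t • b, ⟨s, t, hs, ht, hst, rfl⟩, by simp⟩

lemma exists_shear {W : Type*} [Fintype W] (f : W → ℝ × ℝ) (hf : Function.Injective f) :
    ∃ ε : ℝ, Function.Injective fun w => (shear ε (f w)).2 := by
  classical
  obtain ⟨ε, hε⟩ := Infinite.exists_notMem_finset
    ((Finset.univ : Finset (W × W)).image
      fun p => -((f p.1).2 - (f p.2).2) / ((f p.1).1 - (f p.2).1))
  refine ⟨ε, ?_⟩
  intro u v h
  have h' : (f u).2 + ε * (f u).1 = (f v).2 + ε * (f v).1 := h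
  by_cases hx : (f u).1 = (f v).1
  · apply hf
    rw [hx] at h'
    exact Prod.ext hx (by linarith)
  · exfalso
    apply hε
    rw [Finset.mem_image]
    refine ⟨(u, v), Finset.mem_univ _, ?_⟩
    have hx' : (f u).1 - (f v).1 ≠ 0 := sub_ne_zero.mpr hx
    simp only
    rw [div_eq_iff hx']
    linarith

theorem twoPage_of_plane {W : Type*} [Fintype W] (K : SimpleGraph W) (hK : StraightLinePlanar K) :
    ∃ (m : ℕ) (H : SimpleGraph (Fin m)), m ≤ 2 * Fintype.card W + 1 ∧ TwoPage H ∧ IsMinor K H := by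
  obtain ⟨f, hf, hv, hd⟩ := hK
  obtain ⟨ε, hε⟩ := exists_shear f hf
  refine twoPage_of_sweep (sweepOf (K := K) (fun w => shear ε (f w)) hε ?_ ?_)
  · intro u v w ha hmem
    obtain ⟨z', hz', h⟩ := shear_open ε _ _ _ hmem
    have := shear_inj ε h
    subst this
    exact hv u v w ha hz'
  · intro u v u' v' ha ha' hne
    rw [Set.disjoint_left]
    intro z hz hz'
    obtain ⟨z1, hz1, h1⟩ := shear_open ε _ _ _ hz
    obtain ⟨z2, hz2, h2⟩ := shear_open ε _ _ _ hz'
    have := shear_inj ε (h1.trans h2.symm)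
    subst this
    exact Set.disjoint_left.mp (hd u v u' v' ha ha' hne) hz1 hz2

end TH691.GM
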