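import Pool.Agent.TH691.GM.Route2
import Pool.Agent.TH691.GM.Plane

/-!
# The bound in terms of the degree of the apex vertex (for MP_69d199_co)
-/

namespace TH691.GM

open Relation

/-- Counting heavy blocks: blocks `[k L, k L + L)` with at least `q` elements of `Y`. -/
lemma heavy_blocks (Y : Finset ℕ) (L M q : ℕ) (hL : 0 < L) :
    ((Finset.range M).filter (fun k => q ≤
      ((Finset.Ico (k * L) (k * L + L)).filter (· ∈ Y)).card)).card * q ≤ Y.card := by
  classical
  set F := (Finset.range M).filter (fun k => q ≤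
      ((Finset.Ico (k * L) (k * L + L)).filter (· ∈ Y)).card) with hF
  have h1 : (F.biUnion fun k => (Finset.Ico (k * L) (k * L + L)).filter (· ∈ Y)).card =
      ∑ k ∈ F, ((Finset.Ico (k * L) (k * L + L)).filter (· ∈ Y)).card := by
    refine Finset.card_biUnion ?_
    intro a _ b _ hab
    show Disjoint ((Finset.Ico (a * L) (a * L + L)).filter (· ∈ Y))
      ((Finset.Ico (b * L) (b * L + L)).filter (· ∈ Y))
    rw [Finset.disjoint_left]
    intro x hx hx'
    rw [Finset.mem_filter, Finset.mem_Ico] at hx hx'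
    apply hab
    have e1 : x / L = a := by
      apply Nat.div_eq_of_lt_le
      · exact hx.1.1
      · calc x < a * L + L := hx.1.2
          _ = (a + 1) * L := by ring
    have e2 : x / L = b := by
      apply Nat.div_eq_of_lt_le
      · exact hx'.1.1
      · calc x < b * L + L := hx'.1.2
          _ = (b + 1) * L := by ring
    rw [← e1, ← e2]
  have h2 : (F.biUnion fun k => (Finset.Ico (k * L) (k * L + L)).filter (· ∈ Y)).card ≤ Y.card := by
    refine Finset.card_le_card ?_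
    intro x hx
    rw [Finset.mem_biUnion] at hx
    obtain ⟨k, _, hk⟩ := hx
    exact (Finset.mem_filter.mp hk).2
  have h3 : F.card * q ≤ ∑ k ∈ F, ((Finset.Ico (k * L) (k * L + L)).filter (· ∈ Y)).card := by
    have := Finset.card_nsmul_le_sum F
      (fun k => ((Finset.Ico (k * L) (k * L + L)).filter (· ∈ Y)).card) q
      (fun k hk => (Finset.mem_filter.mp hk).2)
    simpa using this
  omega

/-- many free places in a light block, listed increasingly -/
lemma free_places (Y : Finset ℕ) (k s : ℕ)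
    (h : ((Finset.Ico (k * (2 * s)) (k * (2 * s) + 2 * s)).filter (· ∈ Y)).card < s + 1) :
    ∃ g : ℕ → ℕ, (∀ a < s, k * (2 * s) ≤ g a ∧ g a < k * (2 * s) + 2 * s ∧ g a ∉ Y) ∧
      ∀ a b, a < b → b < s → g a < g b := by
  classical
  set F := (Finset.Ico (k * (2 * s)) (k * (2 * s) + 2 * s)).filter (fun x => ¬ x ∈ Y) with hF
  have h1 : s ≤ F.card := by
    have h2 := Finset.card_filter_add_card_filter_not
      (s := Finset.Ico (k * (2 * s)) (k * (2 * s) + 2 * s)) (p := fun x => x ∈ Y)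
    rw [Nat.card_Ico] at h2
    have h3 : F.card = ((Finset.Ico (k * (2 * s)) (k * (2 * s) + 2 * s)).filter
      (fun x => ¬ x ∈ Y)).card := by rw [hF]
    omega
  let e := F.orderEmbOfCardLe h1
  have he : ∀ i, e i ∈ F := fun i => Finset.orderEmbOfCardLe_mem F h1 i
  refine ⟨fun a => if ha : a < s then e ⟨a, ha⟩ else 0, ?_, ?_⟩
  · intro a ha
    have h4 := he ⟨a, ha⟩
    rw [hF, Finset.mem_filter, Finset.mem_Ico] at h4
    simp only [ha, dif_pos]
    exact ⟨h4.1.1, h4.1.2, h4.2⟩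
  · intro a b hab hb
    have ha : a < s := hab.trans hb
    simp only [ha, hb, dif_pos]
    exact e.strictMono (by exact hab)

/-- The selection of good diagonal blocks and of rows and columns in them. -/
lemma exists_setup2 (m r : ℕ) (Rt : Finset (Fin m)) (M : ℕ)
    (hM : 2 * (m / (4 * (r + 1)) + 2 * Rt.card + 1) ≤ M) (X : Finset (ℕ × ℕ))
    (hX : X.card ≤ 1 + M * (r + 1))
    (hcor : ∀ j < M, (j * (2 * (4 * (r + 1))), j * (2 * (4 * (r + 1)))) ∈ X) :
    ∃ s : Setup2 m (X : Set (ℕ × ℕ)) Rt, ∀ i, s.c i < M * (2 * (4 * (r + 1))) ∧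
      s.ρ i < M * (2 * (4 * (r + 1))) := by
  classical
  set sz := 4 * (r + 1) with hsz
  have hszpos : 0 < sz := by omega
  set L := 2 * sz with hL
  set C := (Finset.range M).filter (fun k => sz + 1 ≤
      ((Finset.Ico (k * L) (k * L + L)).filter (· ∈ X.image Prod.fst)).card) with hC
  set R := (Finset.range M).filter (fun k => sz + 1 ≤
      ((Finset.Ico (k * L) (k * L + L)).filter (· ∈ X.image Prod.snd)).card) with hR
  have h1 : C.card * (sz + 1) ≤ X.card :=
    (heavy_blocks _ L M (sz + 1) (by omega)).trans Finset.card_image_le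
  have h2 : R.card * (sz + 1) ≤ X.card :=
    (heavy_blocks _ L M (sz + 1) (by omega)).trans Finset.card_image_le
  have aux : ∀ B : ℕ, B * (sz + 1) ≤ X.card → 4 * B ≤ M := by
    intro B hB
    by_contra hcon
    have h3 : M + 1 ≤ 4 * B := by omega
    have h4 : (M + 1) * (sz + 1) ≤ 4 * B * (sz + 1) := Nat.mul_le_mul_right _ h3
    have h5 : 4 * B * (sz + 1) = 4 * (B * (sz + 1)) := by ring
    have h6 : (M + 1) * (sz + 1) = 4 * (M * (r + 1)) + M + 4 * (r + 1) + 1 := by rw [hsz]; ring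
    omega
  have h1' := aux _ h1
  have h2' := aux _ h2
  set Gd := (Finset.range M) \ (C ∪ R) with hGd
  have h3 : m / sz + 2 * Rt.card + 1 ≤ Gd.card := by
    have h4 : (Finset.range M).card ≤ Gd.card + (C ∪ R).card := by
      have h5 := Finset.le_card_sdiff (C ∪ R) (Finset.range M)
      have h6 : ((Finset.range M) \ (C ∪ R)).card = Gd.card := by rw [hGd]
      rw [h6] at h5
      omega
    have h5 := Finset.card_union_le C R
    rw [Finset.card_range] at h4
    omega
  have hg : ∀ k ∈ Gd, k < M ∧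
      (∃ g : ℕ → ℕ, (∀ a < sz, k * L ≤ g a ∧ g a < k * L + L ∧ g a ∉ X.image Prod.fst) ∧
        ∀ a b, a < b → b < sz → g a < g b) ∧
      ∃ g : ℕ → ℕ, (∀ a < sz, k * L ≤ g a ∧ g a < k * L + L ∧ g a ∉ X.image Prod.snd) ∧
        ∀ a b, a < b → b < sz → g a < g b := by
    intro k hk
    rw [hGd, Finset.mem_sdiff, Finset.mem_union, not_or] at hk
    obtain ⟨hk0, hkC, hkR⟩ := hk
    refine ⟨Finset.mem_range.mp hk0, ?_, ?_⟩
    · refine free_places _ k sz ?_
      by_contra hcon
      exact hkC (Finset.mem_filter.mpr ⟨hk0, not_lt.mp hcon⟩)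
    · refine free_places _ k sz ?_
      by_contra hcon
      exact hkR (Finset.mem_filter.mpr ⟨hk0, not_lt.mp hcon⟩)
  -- the list of good blocks
  set N := m / sz + 2 * Rt.card + 1 with hN
  let e := Gd.orderEmbOfCardLe h3
  have he : ∀ i, e i ∈ Gd := fun i => Finset.orderEmbOfCardLe_mem Gd h3 i
  -- the place of item `i`
  let rr : Fin m → ℕ := fun i => (Rt.filter (· < i)).card
  let β : Fin m → ℕ := fun i => i.val / sz + 2 * rr i + (if i ∈ Rt then 1 else 0)
  have hrr1 : ∀ i, i ∈ Rt → rr i + 1 ≤ Rt.card := by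
    intro i hi
    have h4 : (insert i (Rt.filter (· < i))).card ≤ Rt.card := by
      refine Finset.card_le_card ?_
      intro x hx
      rcases Finset.mem_insert.mp hx with rfl | hx
      · exact hi
      · exact (Finset.mem_filter.mp hx).1
    rw [Finset.card_insert_of_notMem (by simp)] at h4
    exact h4
  have hrr2 : ∀ i, rr i ≤ Rt.card := fun i => Finset.card_filter_le _ _
  have hrr3 : ∀ i j, i < j → rr i ≤ rr j := by
    intro i j hij
    refine Finset.card_le_card ?_
    intro x hx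
    rw [Finset.mem_filter] at hx ⊢
    exact ⟨hx.1, hx.2.trans hij⟩
  have hrr4 : ∀ i j, i < j → i ∈ Rt → rr i + 1 ≤ rr j := by
    intro i j hij hi
    have h4 : (insert i (Rt.filter (· < i))).card ≤ (Rt.filter (· < j)).card := by
      refine Finset.card_le_card ?_
      intro x hx
      rcases Finset.mem_insert.mp hx with rfl | hx
      · exact Finset.mem_filter.mpr ⟨hi, hij⟩
      · rw [Finset.mem_filter] at hx ⊢
        exact ⟨hx.1, hx.2.trans hij⟩
    rw [Finset.card_insert_of_notMem (by simp)] at h4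
    exact h4
  have hβN : ∀ i, β i < N := by
    intro i
    have h4 : i.val / sz ≤ m / sz := Nat.div_le_div_right i.2.le
    have h5 := hrr2 i
    by_cases hi : i ∈ Rt
    · have h6 := hrr1 i hi
      simp only [β, hi, if_true]
      omega
    · simp only [β, hi, if_false]
      omega
  have hβ : ∀ i j, i < j → (β i < β j) ∨ (β i = β j ∧ i ∉ Rt ∧ j ∉ Rt ∧
      i.val % sz < j.val % sz) := by
    intro i j hij
    have h4 : i.val / sz ≤ j.val / sz := Nat.div_le_div_right (le_of_lt hij)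
    have h5 := hrr3 i j hij
    by_cases hi : i ∈ Rt
    · left
      have h6 := hrr4 i j hij hi
      simp only [β, hi, if_true]
      split_ifs <;> omega
    · by_cases hj : j ∈ Rt
      · left
        simp only [β, hi, hj, if_true, if_false]
        omega
      · simp only [β, hi, hj, if_false]
        by_cases h6 : i.val / sz + 2 * rr i + 0 < j.val / sz + 2 * rr j + 0
        · exact Or.inl h6
        · right
          refine ⟨by omega, not_false, not_false, ?_⟩
          have h7 : i.val / sz = j.val / sz := by omega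
          have h8 := Nat.div_add_mod i.val sz
          have h9 := Nat.div_add_mod j.val sz
          rw [h7] at h8
          have h10 : i.val < j.val := hij
          omega
  choose gc hgc using fun i => (hg _ (he i)).2.1
  choose gr hgr using fun i => (hg _ (he i)).2.2
  let ix : Fin m → Fin N := fun i => ⟨β i, hβN i⟩
  have hmod : ∀ i : Fin m, i.val % sz < sz := fun i => Nat.mod_lt _ hszpos
  have hblk : ∀ i j, i < j → β i < β j → e (ix i) * L + L ≤ e (ix j) * L := by
    intro i j _ hb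
    have h4 : e (ix i) < e (ix j) := e.strictMono (by exact hb)
    calc e (ix i) * L + L = (e (ix i) + 1) * L := by ring
      _ ≤ e (ix j) * L := Nat.mul_le_mul_right L h4
  refine ⟨{ c := fun i => gc (ix i) (i.val % sz), ρ := fun i => gr (ix i) (i.val % sz),
            k := fun i => e (ix i) * L, c_mono := ?_, ρ_mono := ?_, hcol := ?_, hrow := ?_,
            hk1 := ?_, hk2 := ?_, hcor := ?_ }, ?_⟩
  · intro i j hij
    have hi := (hgc (ix i)).1 _ (hmod i)
    have hj := (hgc (ix j)).1 _ (hmod j)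
    rcases hβ i j hij with h | ⟨h, _, _, h'⟩
    · have := hblk i j hij h
      show gc (ix i) (i.val % sz) < gc (ix j) (j.val % sz)
      omega
    · have h4 : ix i = ix j := Fin.ext h
      show gc (ix i) (i.val % sz) < gc (ix j) (j.val % sz)
      rw [h4]
      exact (hgc (ix j)).2 _ _ h' (hmod j)
  · intro i j hij
    have hi := (hgr (ix i)).1 _ (hmod i)
    have hj := (hgr (ix j)).1 _ (hmod j)
    rcases hβ i j hij with h | ⟨h, _, _, h'⟩
    · have := hblk i j hij h
      show gr (ix i) (i.val % sz) < gr (ix j) (j.val % sz)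
      omega
    · have h4 : ix i = ix j := Fin.ext h
      show gr (ix i) (i.val % sz) < gr (ix j) (j.val % sz)
      rw [h4]
      exact (hgr (ix j)).2 _ _ h' (hmod j)
  · intro i y hmem
    exact ((hgc (ix i)).1 _ (hmod i)).2.2 (Finset.mem_image.mpr ⟨_, hmem, rfl⟩)
  · intro i x hmem
    exact ((hgr (ix i)).1 _ (hmod i)).2.2 (Finset.mem_image.mpr ⟨_, hmem, rfl⟩)
  · intro i _
    exact ⟨((hgc (ix i)).1 _ (hmod i)).1, ((hgr (ix i)).1 _ (hmod i)).1⟩
  · intro i hi j hji
    have h4 : β j < β i := by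
      rcases hβ j i hji with h | ⟨_, _, h, _⟩
      · exact h
      · exact absurd hi h
    have h5 := hblk j i hji h4
    have h6 := (hgc (ix j)).1 _ (hmod j)
    have h7 := (hgr (ix j)).1 _ (hmod j)
    refine ⟨?_, ?_⟩
    · show gc (ix j) (j.val % sz) < e (ix i) * L
      omega
    · show gr (ix j) (j.val % sz) < e (ix i) * L
      omega
  · intro i _
    have := hcor _ (hg _ (he (ix i))).1
    simpa using this
  · intro i
    have h4 : e (ix i) < M := (hg _ (he (ix i))).1
    have h5 : (e (ix i) + 1) * L ≤ M * L := Nat.mul_le_mul_right L h4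
    have h6 : (e (ix i) + 1) * L = e (ix i) * L + L := by ring
    have h7 := (hgc (ix i)).1 _ (hmod i)
    have h8 := (hgr (ix i)).1 _ (hmod i)
    refine ⟨?_, ?_⟩
    · show gc (ix i) (i.val % sz) < M * L
      omega
    · show gr (ix i) (i.val % sz) < M * L
      omega

/-- Main theorem, with the number of neighbours of `z`. -/
theorem main2 {VA V : Type*} (A : SimpleGraph VA) (z : VA) (NA : Finset VA)
    (hNA : ∀ a, A.Adj z a → a ∈ NA) (m : ℕ) (H : SimpleGraph (Fin m))
    (hH : TwoPage H) (hA : IsMinor (A.induce {v | v ≠ z}) H)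
    (G : SimpleGraph V) (r : ℕ) (hr : RadiusLE G r) (n : ℕ)
    (hn : 4 * m + 16 * (2 * NA.card + 1) * (r + 1) ≤ n)
    (hG : IsMinor (grid n) G) : IsMinor A G := by
  classical
  obtain ⟨P0, Q0, hP0, hQ0, hPQ⟩ := hH
  obtain ⟨D, hD1, hD2, hD3⟩ := hA
  obtain ⟨B, hB1, hB2, hB3⟩ := hG
  obtain ⟨α, hα⟩ := hr
  -- root vertices
  have hpk : ∀ a : {v | v ≠ z}, ∃ i, i ∈ D a := by
    intro a
    exact ((connected_iff_Cn H _).mp (hD1 a)).1
  choose pk hpk using hpk
  set Rt : Finset (Fin m) := (NA.subtype (fun a => a ∈ {v | v ≠ z})).image pk with hRt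
  have hRtcard : Rt.card ≤ NA.card := by
    refine Finset.card_image_le.trans ?_
    rw [Finset.card_subtype]
    exact Finset.card_filter_le _ _
  have hRtmem : ∀ a : {v | v ≠ z}, a.1 ∈ NA → pk a ∈ Rt := by
    intro a ha
    rw [hRt, Finset.mem_image]
    exact ⟨a, by rw [Finset.mem_subtype]; exact ha, rfl⟩
  set L := 2 * (4 * (r + 1)) with hL
  obtain ⟨M, hM⟩ : ∃ M, M = 2 * (m / (4 * (r + 1)) + 2 * Rt.card + 1) := ⟨_, rfl⟩
  have hML : M * L ≤ n := by
    refine le_trans ?_ hn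
    have h1 : m / (4 * (r + 1)) * (4 * (r + 1)) ≤ m := Nat.div_mul_le_self _ _
    have h2 : M * L = 4 * (m / (4 * (r + 1)) * (4 * (r + 1))) +
        16 * (2 * Rt.card + 1) * (r + 1) := by rw [hM, hL]; ring
    have h3 : 16 * (2 * Rt.card + 1) * (r + 1) ≤ 16 * (2 * NA.card + 1) * (r + 1) :=
      Nat.mul_le_mul_right _ (by omega)
    omega
  have hbox : ∀ j < M, j * L + L ≤ n := by
    intro j hj
    have h1 : (j + 1) * L ≤ M * L := Nat.mul_le_mul_right L (by omega)
    have h3 : (j + 1) * L = j * L + L := by ring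
    omega
  have hLpos : 0 < L := by omega
  -- facts about the extended family
  have hB1' : ∀ p : ℕ × ℕ, p.1 < n → p.2 < n → Cn G.Adj (ext B p) := by
    intro p h1 h2
    have h3 := (connected_iff_Cn G _).mp (hB1 (⟨p.1, h1⟩, ⟨p.2, h2⟩))
    have h4 : ext B p = B (⟨p.1, h1⟩, ⟨p.2, h2⟩) := by
      ext v; unfold ext; simp [h1, h2]
    rw [h4]; exact h3
  have hB2' : ∀ p q : ℕ × ℕ, ∀ v, v ∈ ext B p → v ∈ ext B q → p = q := by
    rintro ⟨p1, p2⟩ ⟨q1, q2⟩ v ⟨h1, h2, h3⟩ ⟨h1', h2', h3'⟩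
    by_contra hne
    have hne' : ((⟨p1, h1⟩, ⟨p2, h2⟩) : Fin n × Fin n) ≠ (⟨q1, h1'⟩, ⟨q2, h2'⟩) := by
      intro h
      apply hne
      simp only [Prod.mk.injEq, Fin.mk.injEq] at h ⊢
      exact h
    exact Set.disjoint_left.mp (hB2 _ _ hne') h3 h3'
  have hB3' : ∀ p q : ℕ × ℕ, gadj p q → p.1 < n → p.2 < n → q.1 < n → q.2 < n →
      ∃ x ∈ ext B p, ∃ y ∈ ext B q, G.Adj x y := by
    intro p q h h1 h2 h3 h4
    obtain ⟨x, hx, y, hy, hxy⟩ := hB3 _ _ (grid_adj_of_gadj h h1 h2 h3 h4)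
    exact ⟨x, ⟨h1, h2, hx⟩, y, ⟨h3, h4, hy⟩, hxy⟩
  -- the corners and the walks
  have hv : ∀ j : ℕ, ∃ v : V, j < M → v ∈ ext B (j * L, j * L) := by
    intro j
    by_cases hj : j < M
    · have := hbox j hj
      obtain ⟨v, hv⟩ := (hB1' (j * L, j * L) (by simp only; omega) (by simp only; omega)).1
      exact ⟨v, fun _ => hv⟩
    · exact ⟨α, fun h => absurd h hj⟩
  choose v hv using hv
  choose W hW using fun j => hα (v j)
  set Zp : Finset V := insert α ((Finset.range (M)).biUnion fun j => (W j).support.toFinset)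
    with hZp
  have hZcard : Zp.card ≤ 1 + M * (r + 1) := by
    have h1 : ((Finset.range (M)).biUnion fun j => (W j).support.toFinset).card ≤
        M * (r + 1) := by
      refine (Finset.card_biUnion_le_card_mul _ _ (r + 1) ?_).trans (by rw [Finset.card_range])
      intro j _
      refine (List.toFinset_card_le _).trans ?_
      rw [SimpleGraph.Walk.length_support]
      have := hW j
      omega
    rw [hZp]
    refine (Finset.card_insert_le _ _).trans ?_
    omega
  have hZC : Cn G.Adj (Zp : Set V) := by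
    refine Cn_of_base (b := α) (fun a b h => h.symm) (by simp [hZp]) ?_
    intro x hx
    have hx' : x = α ∨ ∃ j < M, x ∈ (W j).support := by
      have : x ∈ Zp := hx
      rw [hZp, Finset.mem_insert, Finset.mem_biUnion] at this
      rcases this with h | ⟨j, hj, h⟩
      · exact Or.inl h
      · exact Or.inr ⟨j, Finset.mem_range.mp hj, by simpa using h⟩
    rcases hx' with rfl | ⟨j, hj, hxj⟩
    · exact ReflTransGen.refl
    · refine walk_RTG (W j) ?_ x hxj
      intro y hy
      show y ∈ Zp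
      rw [hZp, Finset.mem_insert, Finset.mem_biUnion]
      exact Or.inr ⟨j, Finset.mem_range.mpr hj, by simpa using hy⟩
  -- the hit set
  set X : Finset (ℕ × ℕ) := ((Finset.range n) ×ˢ (Finset.range n)).filter
    (fun p => ∃ x ∈ Zp, x ∈ ext B p) with hX
  have hXmem : ∀ p ∈ X, (p.1 < n ∧ p.2 < n) ∧ ∃ x ∈ Zp, x ∈ ext B p := by
    intro p hp
    rw [hX, Finset.mem_filter, Finset.mem_product, Finset.mem_range, Finset.mem_range] at hp
    exact hp
  have hXmem' : ∀ p x, x ∈ Zp → x ∈ ext B p → p ∈ X := by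
    intro p x hx hxp
    rw [hX, Finset.mem_filter, Finset.mem_product, Finset.mem_range, Finset.mem_range]
    exact ⟨⟨hxp.1, hxp.2.1⟩, x, hx, hxp⟩
  have hXcard : X.card ≤ 1 + M * (r + 1) := by
    refine le_trans ?_ hZcard
    have : ∀ p : ℕ × ℕ, ∃ x : V, p ∈ X → x ∈ Zp ∧ x ∈ ext B p := by
      intro p
      by_cases hp : p ∈ X
      · obtain ⟨x, hx, hx'⟩ := (hXmem p hp).2
        exact ⟨x, fun _ => ⟨hx, hx'⟩⟩
      · exact ⟨α, fun h => absurd h hp⟩
    choose f hf using this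
    refine Finset.card_le_card_of_injOn f (fun p hp => (hf p hp).1) ?_
    intro p hp q hq hpq
    have h1 := (hf p hp).2
    have h2 := (hf q hq).2
    rw [hpq] at h1
    exact hB2' p q _ h1 h2
  have hXcor : ∀ j < M, (j * L, j * L) ∈ X := by
    intro j hj
    refine hXmem' _ (v j) ?_ (hv j hj)
    rw [hZp, Finset.mem_insert, Finset.mem_biUnion]
    exact Or.inr ⟨j, Finset.mem_range.mpr hj, by simp⟩
  obtain ⟨s, hs⟩ := exists_setup2 m r Rt M hM.ge X hXcard hXcor
  -- pages
  set P : Fin m → Fin m → Prop := fun i j => i < j ∧ P0 i j with hP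
  set Q : Fin m → Fin m → Prop := fun i j => i < j ∧ Q0 i j with hQ
  have hPp : Page P := ⟨fun i j h => h.1, fun i k j l h1 h2 h3 h4 h5 =>
    hP0 i k j l h1 h2 h3 ⟨h4.2, h5.2⟩⟩
  have hQp : Page Q := ⟨fun i j h => h.1, fun i k j l h1 h2 h3 h4 h5 =>
    hQ0 i k j l h1 h2 h3 ⟨h4.2, h5.2⟩⟩
  have hTbox : ∀ i, ∀ p ∈ s.T P Q i, p.1 < n ∧ p.2 < n :=
    fun i => s.T_box P Q n (fun i => ⟨(hs i).1.trans_le hML, (hs i).2.trans_le hML⟩) i
  -- the parts of the spine vertices
  set S : Fin m → Set V := fun i => ⋃ p ∈ s.T P Q i, ext B p with hS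
  have hSC : ∀ i, Cn G.Adj (S i) := by
    intro i
    refine bigU (s.T_conn P Q i) (fun p hp => hB1' p (hTbox i p hp).1 (hTbox i p hp).2) ?_
    intro p hp q hq hpq
    exact hB3' p q hpq (hTbox i p hp).1 (hTbox i p hp).2 (hTbox i q hq).1 (hTbox i q hq).2
  have hSmem : ∀ i x, x ∈ S i ↔ ∃ p ∈ s.T P Q i, x ∈ ext B p := by
    intro i x
    simp only [hS, Set.mem_iUnion, exists_prop]
  have hSdisj : ∀ i j, i ≠ j → ∀ x ∈ S i, x ∉ S j := by
    intro i j hij x hx hx'
    obtain ⟨p, hp, hxp⟩ := (hSmem i x).mp hx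
    obtain ⟨q, hq, hxq⟩ := (hSmem j x).mp hx'
    have := hB2' p q x hxp hxq
    subst this
    exact s.T_disj hPp hQp hij p hp hq
  have hSadj : ∀ i j, H.Adj i j → ∃ x ∈ S i, ∃ y ∈ S j, G.Adj x y := by
    have main1 : ∀ i j, i < j → H.Adj i j → ∃ x ∈ S i, ∃ y ∈ S j, G.Adj x y := by
      intro i j hij hadj
      have h1 : ∃ p ∈ s.T P Q i, ∃ q ∈ s.T P Q j, gadj p q := by
        rcases hPQ i j hij hadj with h | h
        · exact s.T_adjP hPp ⟨hij, h⟩
        · exact s.T_adjQ hQp ⟨hij, h⟩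
      obtain ⟨p, hp, q, hq, hpq⟩ := h1
      obtain ⟨x, hx, y, hy, hxy⟩ := hB3' p q hpq (hTbox i p hp).1 (hTbox i p hp).2
        (hTbox j q hq).1 (hTbox j q hq).2
      exact ⟨x, (hSmem i x).mpr ⟨p, hp, hx⟩, y, (hSmem j y).mpr ⟨q, hq, hy⟩, hxy⟩
    intro i j hadj
    rcases lt_or_gt_of_ne hadj.ne with h | h
    · exact main1 i j h hadj
    · obtain ⟨x, hx, y, hy, hxy⟩ := main1 j i h hadj.symm
      exact ⟨y, hy, x, hx, hxy.symm⟩
  -- the hub
  set Z : Set V := (Zp : Set V) ∪ ⋃ p ∈ (X : Set (ℕ × ℕ)), ext B p with hZ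
  have hZsub : ∀ p ∈ X, ∀ x ∈ ext B p, x ∈ Z := by
    intro p hp x hx
    rw [hZ]
    right
    simp only [Set.mem_iUnion]
    exact ⟨p, hp, hx⟩
  have hZconn : Cn G.Adj Z := by
    have hsub1 : (Zp : Set V) ⊆ Z := Set.subset_union_left
    obtain ⟨⟨z0, hz0⟩, hZ2⟩ := hZC
    refine Cn_of_base (b := z0) (fun a b h => h.symm) (hsub1 hz0) ?_
    intro x hx
    rw [hZ] at hx
    rcases hx with hx | hx
    · exact RTG_mono hsub1 (hZ2 z0 hz0 x hx)
    · simp only [Set.mem_iUnion] at hx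
      obtain ⟨p, hp, hxp⟩ := hx
      obtain ⟨⟨h1, h2⟩, y, hy, hyp⟩ := hXmem p hp
      refine (RTG_mono hsub1 (hZ2 z0 hz0 y hy)).trans ?_
      exact RTG_mono (fun w hw => hZsub p hp w hw) ((hB1' p h1 h2).2 y hyp x hxp)
  have hZS : ∀ i, ∀ x ∈ S i, x ∉ Z := by
    intro i x hx hxZ
    obtain ⟨p, hp, hxp⟩ := (hSmem i x).mp hx
    have hpX : p ∉ (X : Set (ℕ × ℕ)) := s.T_unhit P Q i p hp
    rw [hZ] at hxZ
    rcases hxZ with h | h
    · exact hpX (hXmem' p x h hxp)
    · simp only [Set.mem_iUnion] at h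
      obtain ⟨q, hq, hxq⟩ := h
      have := hB2' p q x hxp hxq
      subst this
      exact hpX hq
  have hZadj : ∀ i ∈ Rt, ∃ x ∈ S i, ∃ y ∈ Z, G.Adj x y := by
    intro i hi
    obtain ⟨p, hp, q, hq, hpq⟩ := s.T_hub P Q i hi
    have hqb := (hXmem q hq).1
    obtain ⟨x, hx, y, hy, hxy⟩ := hB3' p q hpq (hTbox i p hp).1 (hTbox i p hp).2 hqb.1 hqb.2
    exact ⟨x, (hSmem i x).mpr ⟨p, hp, hx⟩, y, hZsub q hq y hy, hxy⟩
  -- the branch sets of `A`
  have hDC : ∀ w : {v | v ≠ z}, Cn G.Adj (⋃ i ∈ D w, S i) := by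
    intro w
    refine bigU ((connected_iff_Cn H _).mp (hD1 w)) (fun i _ => hSC i) ?_
    intro i _ j _ hij
    exact hSadj i j hij
  let F : VA → Set V := fun a => if h : a ≠ z then ⋃ i ∈ D ⟨a, h⟩, S i else Z
  have hFz : F z = Z := by simp [F]
  have hFa : ∀ (a : VA) (h : a ≠ z), F a = ⋃ i ∈ D ⟨a, h⟩, S i := by
    intro a h; simp [F, h]
  have hFmem : ∀ (a : VA) (h : a ≠ z) x, x ∈ F a ↔ ∃ i ∈ D ⟨a, h⟩, x ∈ S i := by
    intro a h x
    rw [hFa a h]
    simp only [Set.mem_iUnion, exists_prop]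
  have hFzadj : ∀ (a : VA) (h : a ≠ z), A.Adj z a → ∃ x ∈ F a, ∃ y ∈ F z, G.Adj x y := by
    intro a h hadj
    obtain ⟨x, hx, y, hy, hxy⟩ := hZadj (pk ⟨a, h⟩) (hRtmem ⟨a, h⟩ (hNA a hadj))
    exact ⟨x, (hFmem a h x).mpr ⟨pk ⟨a, h⟩, hpk ⟨a, h⟩, hx⟩, y, by rw [hFz]; exact hy, hxy⟩
  refine ⟨F, ?_, ?_, ?_⟩
  · intro a
    rw [connected_iff_Cn]
    by_cases h : a = z
    · subst h; rw [hFz]; exact hZconn
    · rw [hFa a h]; exact hDC ⟨a, h⟩
  · intro a a' hne
    rw [Set.disjoint_left]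
    intro x hx hx'
    by_cases h : a = z
    · subst h
      have h' : a' ≠ a := fun e => hne e.symm
      obtain ⟨i, _, hi⟩ := (hFmem a' h' x).mp hx'
      rw [hFz] at hx
      exact hZS i x hi hx
    · obtain ⟨i, hi, hxi⟩ := (hFmem a h x).mp hx
      by_cases h' : a' = z
      · subst h'
        rw [hFz] at hx'
        exact hZS i x hxi hx'
      · obtain ⟨j, hj, hxj⟩ := (hFmem a' h' x).mp hx'
        have hij : i = j := by
          by_contra hij
          exact hSdisj i j hij x hxi hxj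
        subst hij
        have hne' : (⟨a, h⟩ : {v | v ≠ z}) ≠ ⟨a', h'⟩ := by
          intro e
          apply hne
          simpa using e
        exact Set.disjoint_left.mp (hD2 _ _ hne') hi hj
  · intro a a' hadj
    by_cases h : a = z
    · subst h
      obtain ⟨x, hx, y, hy, hxy⟩ := hFzadj a' hadj.symm.ne hadj
      exact ⟨y, hy, x, hx, hxy.symm⟩
    · by_cases h' : a' = z
      · subst h'
        exact hFzadj a h hadj.symm
      · have h1 : (A.induce {v | v ≠ z}).Adj ⟨a, h⟩ ⟨a', h'⟩ := hadj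
        obtain ⟨i, hi, j, hj, hij⟩ := hD3 _ _ h1
        obtain ⟨x, hx, y, hy, hxy⟩ := hSadj i j hij
        exact ⟨x, (hFmem a h x).mpr ⟨i, hi, hx⟩, y, (hFmem a' h' y).mpr ⟨j, hj, hy⟩, hxy⟩

end TH691.GM
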