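import Pool.Agent.TH691.GM.Basic

/-!
# Routing a two-page graph along unhit rows and columns of a grid (for MP_69d199_co)
-/

namespace TH691.GM

open Relation

/-- The data chosen inside the grid: diagonal blocks `b i` of side `L`, an unhit column `c i` and an
unhit row `ρ i` through block `b i`, with the corner of the block hit. -/
structure Setup (m L : ℕ) (X : Set (ℕ × ℕ)) where
  b : Fin m → ℕ
  c : Fin m → ℕ
  ρ : Fin m → ℕ
  hb : StrictMono b
  hc : ∀ i, b i * L ≤ c i ∧ c i < b i * L + L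
  hρ : ∀ i, b i * L ≤ ρ i ∧ ρ i < b i * L + L
  hcol : ∀ i y, (c i, y) ∉ X
  hrow : ∀ i x, (x, ρ i) ∉ X
  hcor : ∀ i, (b i * L, b i * L) ∈ X

variable {m L : ℕ} {X : Set (ℕ × ℕ)}

lemma Setup.lt (s : Setup m L X) {i j : Fin m} (h : i < j) :
    s.b i * L + L ≤ s.b j * L := by
  have h1 : s.b i + 1 ≤ s.b j := s.hb h
  calc s.b i * L + L = (s.b i + 1) * L := by ring
    _ ≤ s.b j * L := Nat.mul_le_mul_right L h1

lemma Setup.exists_xs (s : Setup m L X) (i : Fin m) :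
    ∃ x, s.b i * L ≤ x ∧ x < s.c i ∧ (x, s.b i * L) ∈ X ∧
      ∀ u, x < u → u ≤ s.c i → (u, s.b i * L) ∉ X := by
  classical
  have h0 : (s.b i * L, s.b i * L) ∈ X := s.hcor i
  have hle : s.b i * L ≤ s.c i := (s.hc i).1
  refine ⟨Nat.findGreatest (fun x => (x, s.b i * L) ∈ X) (s.c i), ?_, ?_, ?_, ?_⟩
  · exact Nat.le_findGreatest hle h0
  · rcases (Nat.findGreatest_le (P := fun x => (x, s.b i * L) ∈ X) (s.c i)).lt_or_eq with h | h
    · exact h
    · exfalso
      have h2 := Nat.findGreatest_spec (P := fun x => (x, s.b i * L) ∈ X) hle h0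
      rw [h] at h2
      exact s.hcol i _ h2
  · exact Nat.findGreatest_spec (P := fun x => (x, s.b i * L) ∈ X) hle h0
  · intro u hu hu'
    exact Nat.findGreatest_is_greatest hu hu'

/-- the point where the path to the corner first meets the hit set -/
noncomputable def Setup.xs (s : Setup m L X) (i : Fin m) : ℕ := (s.exists_xs i).choose

lemma Setup.xs_spec (s : Setup m L X) (i : Fin m) :
    s.b i * L ≤ s.xs i ∧ s.xs i < s.c i ∧ (s.xs i, s.b i * L) ∈ X ∧
      ∀ u, s.xs i < u → u ≤ s.c i → (u, s.b i * L) ∉ X := (s.exists_xs i).choose_spec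

/-- The grid part of the branch set of the `i`-th spine vertex. -/
def Setup.T (s : Setup m L X) (P Q : Fin m → Fin m → Prop) (i : Fin m) : Set (ℕ × ℕ) :=
  {p | (p.1 = s.c i ∧ s.b i * L ≤ p.2 ∧ p.2 ≤ s.ρ i) ∨
    (p.2 = s.b i * L ∧ s.xs i < p.1 ∧ p.1 ≤ s.c i) ∨
    (p.1 = s.c i ∧ s.ρ i ≤ p.2 ∧
      ∃ j, P i j ∧ (p.2 < s.ρ j ∨ (p.2 = s.ρ j ∧ ∀ i', P i' j → i ≤ i'))) ∨
    (p.2 = s.ρ i ∧ p.1 ≤ s.c i ∧ ∃ k, P k i ∧ s.c k < p.1) ∨
    (p.2 = s.ρ i ∧ s.c i ≤ p.1 ∧
      ∃ j, Q i j ∧ (p.1 < s.c j ∨ (p.1 = s.c j ∧ ∀ i', Q i' j → i ≤ i'))) ∨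
    (p.1 = s.c i ∧ p.2 ≤ s.ρ i ∧ ∃ k, Q k i ∧ s.ρ k < p.2)}

lemma Setup.c_lt (s : Setup m L X) {i j : Fin m} (h : i < j) : s.c i < s.c j := by
  have h1 := s.lt h
  have h2 := s.hc i
  have h3 := s.hc j
  omega

lemma Setup.ρ_lt (s : Setup m L X) {i j : Fin m} (h : i < j) : s.ρ i < s.ρ j := by
  have h1 := s.lt h
  have h2 := s.hρ i
  have h3 := s.hρ j
  omega

lemma Setup.lt_of_c (s : Setup m L X) {i j : Fin m} (h : s.c i < s.c j) : i < j := by
  rcases lt_trichotomy i j with h1 | h1 | h1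
  · exact h1
  · subst h1; omega
  · have := s.c_lt h1; omega

lemma Setup.lt_of_ρ (s : Setup m L X) {i j : Fin m} (h : s.ρ i < s.ρ j) : i < j := by
  rcases lt_trichotomy i j with h1 | h1 | h1
  · exact h1
  · subst h1; omega
  · have := s.ρ_lt h1; omega

lemma Setup.base_mem (s : Setup m L X) (P Q : Fin m → Fin m → Prop) (i : Fin m) :
    (s.c i, s.ρ i) ∈ s.T P Q i := by
  left
  exact ⟨rfl, (s.hρ i).1, le_refl _⟩

lemma Setup.T_unhit (s : Setup m L X) (P Q : Fin m → Fin m → Prop) (i : Fin m) :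
    ∀ p ∈ s.T P Q i, p ∉ X := by
  rintro ⟨x, y⟩ hp hX
  rcases hp with h | h | h | h | h | h
  · simp only at h; rw [h.1] at hX; exact s.hcol i _ hX
  · simp only at h; rw [h.1] at hX; exact (s.xs_spec i).2.2.2 x h.2.1 h.2.2 hX
  · simp only at h; rw [h.1] at hX; exact s.hcol i _ hX
  · simp only at h; rw [h.1] at hX; exact s.hrow i _ hX
  · simp only at h; rw [h.1] at hX; exact s.hrow i _ hX
  · simp only at h; rw [h.1] at hX; exact s.hcol i _ hX

lemma Setup.T_conn (s : Setup m L X) (P Q : Fin m → Fin m → Prop) (i : Fin m) :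
    Cn gadj (s.T P Q i) := by
  refine Cn_of_base gadj_symm (s.base_mem P Q i) ?_
  have hρ := s.hρ i
  have hxs := s.xs_spec i
  have hD : ∀ y, s.b i * L ≤ y → y ≤ s.ρ i → (s.c i, y) ∈ s.T P Q i :=
    fun y h1 h2 => Or.inl ⟨rfl, h1, h2⟩
  have hH : ∀ x, s.xs i < x → x ≤ s.c i → (x, s.b i * L) ∈ s.T P Q i :=
    fun x h1 h2 => Or.inr (Or.inl ⟨rfl, h1, h2⟩)
  rintro ⟨x, y⟩ hp
  rcases hp with h | h | h | h | h | h
  · obtain ⟨rfl, h1, h2⟩ := h
    exact seg_down' _ _ _ h2 (fun u h3 h4 => hD u (le_trans h1 h3) h4)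
  · obtain ⟨hy, h1, h2⟩ := h
    simp only at hy h1 h2
    subst hy
    refine (seg_down' _ _ _ hρ.1 (fun u h3 h4 => hD u h3 h4)).trans ?_
    exact seg_left' _ _ _ h2 (fun u h3 h4 => hH u (lt_of_lt_of_le h1 h3) h4)
  · obtain ⟨hx, h1, j, hj, h2⟩ := h
    simp only at hx h1 h2
    subst hx
    refine seg_up' _ _ _ h1 (fun u h3 h4 => ?_)
    refine Or.inr (Or.inr (Or.inl ⟨rfl, h3, j, hj, ?_⟩))
    simp only
    rcases h2 with h2 | h2
    · left; omega
    · rcases Nat.lt_or_ge u (s.ρ j) with h5 | h5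
      · left; exact h5
      · right; exact ⟨by omega, h2.2⟩
  · obtain ⟨hy, h1, k, hk, h2⟩ := h
    simp only at hy h1 h2
    subst hy
    refine seg_left' _ _ _ h1 (fun u h3 h4 => ?_)
    refine Or.inr (Or.inr (Or.inr (Or.inl ⟨rfl, h4, k, hk, ?_⟩)))
    simp only
    omega
  · obtain ⟨hx, h1, j, hj, h2⟩ := h
    simp only at hx h1 h2
    subst hx
    refine seg_right' _ _ _ h1 (fun u h3 h4 => ?_)
    refine Or.inr (Or.inr (Or.inr (Or.inr (Or.inl ⟨rfl, h3, j, hj, ?_⟩))))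
    simp only
    rcases h2 with h2 | h2
    · left; omega
    · rcases Nat.lt_or_ge u (s.c j) with h5 | h5
      · left; exact h5
      · right; exact ⟨by omega, h2.2⟩
  · obtain ⟨hy, h1, k, hk, h2⟩ := h
    simp only at hy h1 h2
    subst hy
    refine seg_down' _ _ _ h1 (fun u h3 h4 => ?_)
    refine Or.inr (Or.inr (Or.inr (Or.inr (Or.inr ⟨rfl, h4, k, hk, ?_⟩))))
    simp only
    omega

/-- `P` is a set of pairs `i < j` drawn on one page without crossings -/
def Page (P : Fin m → Fin m → Prop) : Prop :=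
  (∀ i j, P i j → i < j) ∧ ∀ i k j l, i < k → k < j → j < l → P i j → P k l → False

lemma Setup.T_disj_lt (s : Setup m L X) {P Q : Fin m → Fin m → Prop} (hP : Page P) (hQ : Page Q)
    {i j : Fin m} (hij : i < j) : ∀ p ∈ s.T P Q i, p ∉ s.T P Q j := by
  have hlt := s.lt hij
  have hci := s.hc i
  have hcj := s.hc j
  have hρi := s.hρ i
  have hρj := s.hρ j
  have hxi := s.xs_spec i
  have hxj := s.xs_spec j
  have hxi1 := hxi.1
  have hxi2 := hxi.2.1
  have hxj1 := hxj.1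
  have hxj2 := hxj.2.1
  clear hxi hxj
  rintro ⟨x, y⟩ hp hq
  rcases hp with h | h | h | h | h | h
  · rcases hq with h' | h' | h' | h' | h' | h' <;> (simp only at h h'; omega)
  · rcases hq with h' | h' | h' | h' | h' | h' <;> (simp only at h h'; omega)
  · obtain ⟨hx, h1, j', hj', h2⟩ := h
    rcases hq with h' | h' | h' | h' | h' | h'
    · simp only at h' hx h1; omega
    · simp only at h' hx h1; omega
    · simp only at h' hx h1; omega
    · -- the main case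
      obtain ⟨hy, h3, i', hi', h4⟩ := h'
      simp only at hx h1 h2 hy h3 h4
      have e1 : i' < i := s.lt_of_c (by omega)
      rcases h2 with h2 | ⟨h2, h2'⟩
      · have e2 : j < j' := s.lt_of_ρ (by omega)
        exact hP.2 i' i j j' e1 hij e2 hi' hj'
      · have e3 : j = j' := by
          rcases lt_trichotomy j j' with e | e | e
          · have := s.ρ_lt e; omega
          · exact e
          · have := s.ρ_lt e; omega
        subst e3
        exact absurd (h2' i' hi') (not_le.mpr e1)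
    · simp only at h' hx h1; omega
    · simp only at h' hx h1; omega
  · obtain ⟨hy, h1, k, hk, h2⟩ := h
    rcases hq with h' | h' | h' | h' | h' | h' <;> (simp only at h' hy h1; omega)
  · obtain ⟨hy, h1, j', hj', h2⟩ := h
    rcases hq with h' | h' | h' | h' | h' | h'
    · simp only at h' hy h1; omega
    · simp only at h' hy h1; omega
    · simp only at h' hy h1; omega
    · simp only at h' hy h1; omega
    · simp only at h' hy h1; omega
    · obtain ⟨hx, h3, i', hi', h4⟩ := h'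
      simp only at hx h1 h2 hy h3 h4
      have e1 : i' < i := s.lt_of_ρ (by omega)
      rcases h2 with h2 | ⟨h2, h2'⟩
      · have e2 : j < j' := s.lt_of_c (by omega)
        exact hQ.2 i' i j j' e1 hij e2 hi' hj'
      · have e3 : j = j' := by
          rcases lt_trichotomy j j' with e | e | e
          · have := s.c_lt e; omega
          · exact e
          · have := s.c_lt e; omega
        subst e3
        exact absurd (h2' i' hi') (not_le.mpr e1)
  · obtain ⟨hx, h1, k, hk, h2⟩ := h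
    rcases hq with h' | h' | h' | h' | h' | h' <;> (simp only at h' hx h1; omega)

lemma Setup.T_disj (s : Setup m L X) {P Q : Fin m → Fin m → Prop} (hP : Page P) (hQ : Page Q)
    {i j : Fin m} (hij : i ≠ j) : ∀ p ∈ s.T P Q i, p ∉ s.T P Q j := by
  rcases lt_or_gt_of_ne hij with h | h
  · exact s.T_disj_lt hP hQ h
  · intro p hp hq
    exact s.T_disj_lt hP hQ h p hq hp

lemma Setup.T_hub (s : Setup m L X) (P Q : Fin m → Fin m → Prop) (i : Fin m) :
    ∃ p ∈ s.T P Q i, ∃ q ∈ X, gadj p q := by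
  have h := s.xs_spec i
  refine ⟨(s.xs i + 1, s.b i * L), Or.inr (Or.inl ⟨rfl, ?_, ?_⟩), (s.xs i, s.b i * L), h.2.2.1,
    Or.inr ⟨rfl, Or.inr rfl⟩⟩
  · show s.xs i < s.xs i + 1
    omega
  · show s.xs i + 1 ≤ s.c i
    have := h.2.1
    omega

lemma Setup.T_adjP (s : Setup m L X) {P Q : Fin m → Fin m → Prop} (hP : Page P)
    {i j : Fin m} (hij : P i j) : ∃ p ∈ s.T P Q i, ∃ q ∈ s.T P Q j, gadj p q := by
  have hlt := hP.1 i j hij
  have hc := s.c_lt hlt
  have hρ := s.ρ_lt hlt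
  by_cases hmin : ∀ i', P i' j → i ≤ i'
  · refine ⟨(s.c i, s.ρ j), ?_, (s.c i + 1, s.ρ j), ?_, Or.inr ⟨rfl, Or.inl rfl⟩⟩
    · exact Or.inr (Or.inr (Or.inl ⟨rfl, hρ.le, j, hij, Or.inr ⟨rfl, hmin⟩⟩))
    · refine Or.inr (Or.inr (Or.inr (Or.inl ⟨rfl, ?_, i, hij, ?_⟩)))
      · show s.c i + 1 ≤ s.c j
        omega
      · show s.c i < s.c i + 1
        omega
  · push Not at hmin
    obtain ⟨i', hi', hlt'⟩ := hmin
    refine ⟨(s.c i, s.ρ j - 1), ?_, (s.c i, s.ρ j), ?_, Or.inl ⟨rfl, Or.inl ?_⟩⟩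
    · refine Or.inr (Or.inr (Or.inl ⟨rfl, ?_, j, hij, Or.inl ?_⟩))
      · show s.ρ i ≤ s.ρ j - 1
        omega
      · show s.ρ j - 1 < s.ρ j
        omega
    · exact Or.inr (Or.inr (Or.inr (Or.inl ⟨rfl, hc.le, i', hi', s.c_lt hlt'⟩)))
    · show s.ρ j - 1 + 1 = s.ρ j
      omega

lemma Setup.T_adjQ (s : Setup m L X) {P Q : Fin m → Fin m → Prop} (hQ : Page Q)
    {i j : Fin m} (hij : Q i j) : ∃ p ∈ s.T P Q i, ∃ q ∈ s.T P Q j, gadj p q := by
  have hlt := hQ.1 i j hij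
  have hc := s.c_lt hlt
  have hρ := s.ρ_lt hlt
  by_cases hmin : ∀ i', Q i' j → i ≤ i'
  · refine ⟨(s.c j, s.ρ i), ?_, (s.c j, s.ρ i + 1), ?_, Or.inl ⟨rfl, Or.inl rfl⟩⟩
    · exact Or.inr (Or.inr (Or.inr (Or.inr (Or.inl ⟨rfl, hc.le, j, hij, Or.inr ⟨rfl, hmin⟩⟩))))
    · refine Or.inr (Or.inr (Or.inr (Or.inr (Or.inr ⟨rfl, ?_, i, hij, ?_⟩))))
      · show s.ρ i + 1 ≤ s.ρ j
        omega
      · show s.ρ i < s.ρ i + 1
        omega
  · push Not at hmin
    obtain ⟨i', hi', hlt'⟩ := hmin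
    refine ⟨(s.c j - 1, s.ρ i), ?_, (s.c j, s.ρ i), ?_, Or.inr ⟨rfl, Or.inl ?_⟩⟩
    · refine Or.inr (Or.inr (Or.inr (Or.inr (Or.inl ⟨rfl, ?_, j, hij, Or.inl ?_⟩))))
      · show s.c i ≤ s.c j - 1
        omega
      · show s.c j - 1 < s.c j
        omega
    · exact Or.inr (Or.inr (Or.inr (Or.inr (Or.inr ⟨rfl, hρ.le, i', hi', s.ρ_lt hlt'⟩))))
    · show s.c j - 1 + 1 = s.c j
      omega

/-- all grid parts lie in the box as soon as all blocks do -/
lemma Setup.T_box (s : Setup m L X) (P Q : Fin m → Fin m → Prop) (n : ℕ)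
    (hn : ∀ i, s.b i * L + L ≤ n) (i : Fin m) : ∀ p ∈ s.T P Q i, p.1 < n ∧ p.2 < n := by
  have h0 := hn i
  have hci := s.hc i
  have hρi := s.hρ i
  rintro ⟨x, y⟩ hp
  rcases hp with h | h | h | h | h | h
  · simp only at h ⊢; omega
  · simp only at h ⊢; omega
  · obtain ⟨h1, h2, j, _, h3⟩ := h
    have := s.hρ j
    have := hn j
    simp only at h1 h2 h3 ⊢; omega
  · simp only at h ⊢; omega
  · obtain ⟨h1, h2, j, _, h3⟩ := h
    have := s.hc j
    have := hn j
    simp only at h1 h2 h3 ⊢; omega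
  · simp only at h ⊢; omega

end TH691.GM
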