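import Pool.Agent.TH691.GM.Main

/-!
# Routing with few root vertices (for MP_69d199_co)

Refinement of `Route`: only the spine vertices in the set `Rt` must touch the hit set.
-/

namespace TH691.GM

open Relation

/-- The data chosen inside the grid: unhit columns `c i` and unhit rows `ρ i`, both increasing, and
for the root vertices `i ∈ Rt` a hit diagonal point `(k i, k i)` after all earlier columns and
rows. -/
structure Setup2 (m : ℕ) (X : Set (ℕ × ℕ)) (Rt : Finset (Fin m)) where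
  c : Fin m → ℕ
  ρ : Fin m → ℕ
  k : Fin m → ℕ
  c_mono : ∀ i j, i < j → c i < c j
  ρ_mono : ∀ i j, i < j → ρ i < ρ j
  hcol : ∀ i y, (c i, y) ∉ X
  hrow : ∀ i x, (x, ρ i) ∉ X
  hk1 : ∀ i ∈ Rt, k i ≤ c i ∧ k i ≤ ρ i
  hk2 : ∀ i ∈ Rt, ∀ j, j < i → c j < k i ∧ ρ j < k i
  hcor : ∀ i ∈ Rt, (k i, k i) ∈ X

variable {m : ℕ} {X : Set (ℕ × ℕ)} {Rt : Finset (Fin m)}

lemma Setup2.exists_xs (s : Setup2 m X Rt) (i : Fin m) :
    ∃ x, i ∈ Rt → (s.k i ≤ x ∧ x < s.c i ∧ (x, s.k i) ∈ X ∧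
      ∀ u, x < u → u ≤ s.c i → (u, s.k i) ∉ X) := by
  classical
  by_cases hi : i ∈ Rt
  · have h0 : (s.k i, s.k i) ∈ X := s.hcor i hi
    have hle : s.k i ≤ s.c i := (s.hk1 i hi).1
    refine ⟨Nat.findGreatest (fun x => (x, s.k i) ∈ X) (s.c i), fun _ => ⟨?_, ?_, ?_, ?_⟩⟩
    · exact Nat.le_findGreatest hle h0
    · rcases (Nat.findGreatest_le (P := fun x => (x, s.k i) ∈ X) (s.c i)).lt_or_eq with h | h
      · exact h
      · exfalso
        have h2 := Nat.findGreatest_spec (P := fun x => (x, s.k i) ∈ X) hle h0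
        rw [h] at h2
        exact s.hcol i _ h2
    · exact Nat.findGreatest_spec (P := fun x => (x, s.k i) ∈ X) hle h0
    · intro u hu hu'
      exact Nat.findGreatest_is_greatest hu hu'
  · exact ⟨0, fun h => absurd h hi⟩

/-- the point where the path to the corner first meets the hit set -/
noncomputable def Setup2.xs (s : Setup2 m X Rt) (i : Fin m) : ℕ := (s.exists_xs i).choose

lemma Setup2.xs_spec (s : Setup2 m X Rt) (i : Fin m) (hi : i ∈ Rt) :
    s.k i ≤ s.xs i ∧ s.xs i < s.c i ∧ (s.xs i, s.k i) ∈ X ∧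
      ∀ u, s.xs i < u → u ≤ s.c i → (u, s.k i) ∉ X := (s.exists_xs i).choose_spec hi

/-- The grid part of the branch set of the `i`-th spine vertex. -/
def Setup2.T (s : Setup2 m X Rt) (P Q : Fin m → Fin m → Prop) (i : Fin m) : Set (ℕ × ℕ) :=
  {p | (p.1 = s.c i ∧ p.2 = s.ρ i) ∨
    (i ∈ Rt ∧ p.1 = s.c i ∧ s.k i ≤ p.2 ∧ p.2 ≤ s.ρ i) ∨
    (i ∈ Rt ∧ p.2 = s.k i ∧ s.xs i < p.1 ∧ p.1 ≤ s.c i) ∨
    (p.1 = s.c i ∧ s.ρ i ≤ p.2 ∧
      ∃ j, P i j ∧ (p.2 < s.ρ j ∨ (p.2 = s.ρ j ∧ ∀ i', P i' j → i ≤ i'))) ∨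
    (p.2 = s.ρ i ∧ p.1 ≤ s.c i ∧ ∃ k, P k i ∧ s.c k < p.1) ∨
    (p.2 = s.ρ i ∧ s.c i ≤ p.1 ∧
      ∃ j, Q i j ∧ (p.1 < s.c j ∨ (p.1 = s.c j ∧ ∀ i', Q i' j → i ≤ i'))) ∨
    (p.1 = s.c i ∧ p.2 ≤ s.ρ i ∧ ∃ k, Q k i ∧ s.ρ k < p.2)}

lemma Setup2.lt_of_c (s : Setup2 m X Rt) {i j : Fin m} (h : s.c i < s.c j) : i < j := by
  rcases lt_trichotomy i j with h1 | h1 | h1
  · exact h1
  · subst h1; omega
  · have := s.c_mono _ _ h1; omega

lemma Setup2.lt_of_ρ (s : Setup2 m X Rt) {i j : Fin m} (h : s.ρ i < s.ρ j) : i < j := by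
  rcases lt_trichotomy i j with h1 | h1 | h1
  · exact h1
  · subst h1; omega
  · have := s.ρ_mono _ _ h1; omega

lemma Setup2.base_mem (s : Setup2 m X Rt) (P Q : Fin m → Fin m → Prop) (i : Fin m) :
    (s.c i, s.ρ i) ∈ s.T P Q i := Or.inl ⟨rfl, rfl⟩

lemma Setup2.T_unhit (s : Setup2 m X Rt) (P Q : Fin m → Fin m → Prop) (i : Fin m) :
    ∀ p ∈ s.T P Q i, p ∉ X := by
  rintro ⟨x, y⟩ hp hX
  rcases hp with h | h | h | h | h | h | h
  · simp only at h; rw [h.1] at hX; exact s.hcol i _ hX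
  · simp only at h; rw [h.2.1] at hX; exact s.hcol i _ hX
  · simp only at h; rw [h.2.1] at hX; exact (s.xs_spec i h.1).2.2.2 x h.2.2.1 h.2.2.2 hX
  · simp only at h; rw [h.1] at hX; exact s.hcol i _ hX
  · simp only at h; rw [h.1] at hX; exact s.hrow i _ hX
  · simp only at h; rw [h.1] at hX; exact s.hrow i _ hX
  · simp only at h; rw [h.1] at hX; exact s.hcol i _ hX

lemma Setup2.T_conn (s : Setup2 m X Rt) (P Q : Fin m → Fin m → Prop) (i : Fin m) :
    Cn gadj (s.T P Q i) := by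
  refine Cn_of_base gadj_symm (s.base_mem P Q i) ?_
  rintro ⟨x, y⟩ hp
  rcases hp with h | h | h | h | h | h | h
  · simp only at h
    rw [h.1, h.2]
  · obtain ⟨hi, rfl, h1, h2⟩ := h
    exact seg_down' _ _ _ h2 (fun u h3 h4 => Or.inr (Or.inl ⟨hi, rfl, le_trans h1 h3, h4⟩))
  · obtain ⟨hi, hy, h1, h2⟩ := h
    simp only at hy h1 h2
    subst hy
    refine (seg_down' _ _ _ (s.hk1 i hi).2
      (fun u h3 h4 => Or.inr (Or.inl ⟨hi, rfl, h3, h4⟩))).trans ?_
    exact seg_left' _ _ _ h2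
      (fun u h3 h4 => Or.inr (Or.inr (Or.inl ⟨hi, rfl, lt_of_lt_of_le h1 h3, h4⟩)))
  · obtain ⟨hx, h1, j, hj, h2⟩ := h
    simp only at hx h1 h2
    subst hx
    refine seg_up' _ _ _ h1 (fun u h3 h4 => ?_)
    refine Or.inr (Or.inr (Or.inr (Or.inl ⟨rfl, h3, j, hj, ?_⟩)))
    simp only
    rcases h2 with h2 | h2
    · left; omega
    · rcases Nat.lt_or_ge u (s.ρ j) with h5 | h5
      · left; exact h5
      · right; exact ⟨by omega, h2.2⟩
  · obtain ⟨hy, h1, k, hk, h2⟩ := h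
    simp only at hy h1 h2
    subst hy
    refine seg_left' _ _ _ h1 (fun u h3 h4 => ?_)
    refine Or.inr (Or.inr (Or.inr (Or.inr (Or.inl ⟨rfl, h4, k, hk, ?_⟩))))
    simp only
    omega
  · obtain ⟨hx, h1, j, hj, h2⟩ := h
    simp only at hx h1 h2
    subst hx
    refine seg_right' _ _ _ h1 (fun u h3 h4 => ?_)
    refine Or.inr (Or.inr (Or.inr (Or.inr (Or.inr (Or.inl ⟨rfl, h3, j, hj, ?_⟩)))))
    simp only
    rcases h2 with h2 | h2
    · left; omega
    · rcases Nat.lt_or_ge u (s.c j) with h5 | h5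
      · left; exact h5
      · right; exact ⟨by omega, h2.2⟩
  · obtain ⟨hy, h1, k, hk, h2⟩ := h
    simp only at hy h1 h2
    subst hy
    refine seg_down' _ _ _ h1 (fun u h3 h4 => ?_)
    refine Or.inr (Or.inr (Or.inr (Or.inr (Or.inr (Or.inr ⟨rfl, h4, k, hk, ?_⟩)))))
    simp only
    omega

lemma Setup2.T_disj_lt (s : Setup2 m X Rt) {P Q : Fin m → Fin m → Prop} (hP : Page P)
    (hQ : Page Q) {i j : Fin m} (hij : i < j) : ∀ p ∈ s.T P Q i, p ∉ s.T P Q j := by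
  have hc := s.c_mono i j hij
  have hρ := s.ρ_mono i j hij
  have hi : i ∈ Rt → s.k i ≤ s.c i ∧ s.k i ≤ s.ρ i ∧ s.k i ≤ s.xs i ∧ s.xs i < s.c i := fun h =>
    ⟨(s.hk1 i h).1, (s.hk1 i h).2, (s.xs_spec i h).1, (s.xs_spec i h).2.1⟩
  have hj : j ∈ Rt → s.k j ≤ s.c j ∧ s.k j ≤ s.ρ j ∧ s.k j ≤ s.xs j ∧ s.xs j < s.c j ∧
      s.c i < s.k j ∧ s.ρ i < s.k j := fun h =>
    ⟨(s.hk1 j h).1, (s.hk1 j h).2, (s.xs_spec j h).1, (s.xs_spec j h).2.1,
      (s.hk2 j h i hij).1, (s.hk2 j h i hij).2⟩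
  rintro ⟨x, y⟩ hp hq
  rcases hp with h | h | h | h | h | h | h
  · rcases hq with h' | ⟨hjR, h'⟩ | ⟨hjR, h'⟩ | h' | h' | h' | h'
    · simp only at h h'; omega
    · have := hj hjR; simp only at h h'; omega
    · have := hj hjR; simp only at h h'; omega
    · simp only at h h'; omega
    · simp only at h h'; omega
    · simp only at h h'; omega
    · simp only at h h'; omega
  · obtain ⟨hiR, h⟩ := h
    have hi' := hi hiR
    rcases hq with h' | ⟨hjR, h'⟩ | ⟨hjR, h'⟩ | h' | h' | h' | h'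
    · simp only at h h'; omega
    · have := hj hjR; simp only at h h'; omega
    · have := hj hjR; simp only at h h'; omega
    · simp only at h h'; omega
    · simp only at h h'; omega
    · simp only at h h'; omega
    · simp only at h h'; omega
  · obtain ⟨hiR, h⟩ := h
    have hi' := hi hiR
    rcases hq with h' | ⟨hjR, h'⟩ | ⟨hjR, h'⟩ | h' | h' | h' | h'
    · simp only at h h'; omega
    · have := hj hjR; simp only at h h'; omega
    · have := hj hjR; simp only at h h'; omega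
    · simp only at h h'; omega
    · simp only at h h'; omega
    · simp only at h h'; omega
    · simp only at h h'; omega
  · obtain ⟨hx, h1, j', hj', h2⟩ := h
    rcases hq with h' | ⟨hjR, h'⟩ | ⟨hjR, h'⟩ | h' | h' | h' | h'
    · simp only at h' hx h1; omega
    · have := hj hjR; simp only at h' hx h1; omega
    · have := hj hjR; simp only at h' hx h1; omega
    · simp only at h' hx h1; omega
    · -- the main case
      obtain ⟨hy, h3, i', hi', h4⟩ := h'
      simp only at hx h1 h2 hy h3 h4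
      have e1 : i' < i := s.lt_of_c (by omega)
      rcases h2 with h2 | ⟨h2, h2'⟩
      · have e2 : j < j' := s.lt_of_ρ (by omega)
        exact hP.2 i' i j j' e1 hij e2 hi' hj'
      · have e3 : j = j' := by
          rcases lt_trichotomy j j' with e | e | e
          · have := s.ρ_mono _ _ e; omega
          · exact e
          · have := s.ρ_mono _ _ e; omega
        subst e3
        exact absurd (h2' i' hi') (not_le.mpr e1)
    · simp only at h' hx h1; omega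
    · simp only at h' hx h1; omega
  · obtain ⟨hy, h1, k, hk, h2⟩ := h
    rcases hq with h' | ⟨hjR, h'⟩ | ⟨hjR, h'⟩ | h' | h' | h' | h'
    · simp only at h' hy h1; omega
    · have := hj hjR; simp only at h' hy h1; omega
    · have := hj hjR; simp only at h' hy h1; omega
    · simp only at h' hy h1; omega
    · simp only at h' hy h1; omega
    · simp only at h' hy h1; omega
    · simp only at h' hy h1; omega
  · obtain ⟨hy, h1, j', hj', h2⟩ := h
    rcases hq with h' | ⟨hjR, h'⟩ | ⟨hjR, h'⟩ | h' | h' | h' | h'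
    · simp only at h' hy h1; omega
    · have := hj hjR; simp only at h' hy h1; omega
    · have := hj hjR; simp only at h' hy h1; omega
    · simp only at h' hy h1; omega
    · simp only at h' hy h1; omega
    · simp only at h' hy h1; omega
    · obtain ⟨hx, h3, i', hi', h4⟩ := h'
      simp only at hx h1 h2 hy h3 h4
      have e1 : i' < i := s.lt_of_ρ (by omega)
      rcases h2 with h2 | ⟨h2, h2'⟩
      · have e2 : j < j' := s.lt_of_c (by omega)
        exact hQ.2 i' i j j' e1 hij e2 hi' hj'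
      · have e3 : j = j' := by
          rcases lt_trichotomy j j' with e | e | e
          · have := s.c_mono _ _ e; omega
          · exact e
          · have := s.c_mono _ _ e; omega
        subst e3
        exact absurd (h2' i' hi') (not_le.mpr e1)
  · obtain ⟨hx, h1, k, hk, h2⟩ := h
    rcases hq with h' | ⟨hjR, h'⟩ | ⟨hjR, h'⟩ | h' | h' | h' | h'
    · simp only at h' hx h1; omega
    · have := hj hjR; simp only at h' hx h1; omega
    · have := hj hjR; simp only at h' hx h1; omega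
    · simp only at h' hx h1; omega
    · simp only at h' hx h1; omega
    · simp only at h' hx h1; omega
    · simp only at h' hx h1; omega

lemma Setup2.T_disj (s : Setup2 m X Rt) {P Q : Fin m → Fin m → Prop} (hP : Page P) (hQ : Page Q)
    {i j : Fin m} (hij : i ≠ j) : ∀ p ∈ s.T P Q i, p ∉ s.T P Q j := by
  rcases lt_or_gt_of_ne hij with h | h
  · exact s.T_disj_lt hP hQ h
  · intro p hp hq
    exact s.T_disj_lt hP hQ h p hq hp

lemma Setup2.T_hub (s : Setup2 m X Rt) (P Q : Fin m → Fin m → Prop) (i : Fin m) (hi : i ∈ Rt) :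
    ∃ p ∈ s.T P Q i, ∃ q ∈ X, gadj p q := by
  have h := s.xs_spec i hi
  refine ⟨(s.xs i + 1, s.k i), Or.inr (Or.inr (Or.inl ⟨hi, rfl, ?_, ?_⟩)), (s.xs i, s.k i),
    h.2.2.1, Or.inr ⟨rfl, Or.inr rfl⟩⟩
  · show s.xs i < s.xs i + 1
    omega
  · show s.xs i + 1 ≤ s.c i
    have := h.2.1
    omega

lemma Setup2.T_adjP (s : Setup2 m X Rt) {P Q : Fin m → Fin m → Prop} (hP : Page P)
    {i j : Fin m} (hij : P i j) : ∃ p ∈ s.T P Q i, ∃ q ∈ s.T P Q j, gadj p q := by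
  have hlt := hP.1 i j hij
  have hc := s.c_mono _ _ hlt
  have hρ := s.ρ_mono _ _ hlt
  by_cases hmin : ∀ i', P i' j → i ≤ i'
  · refine ⟨(s.c i, s.ρ j), ?_, (s.c i + 1, s.ρ j), ?_, Or.inr ⟨rfl, Or.inl rfl⟩⟩
    · exact Or.inr (Or.inr (Or.inr (Or.inl ⟨rfl, hρ.le, j, hij, Or.inr ⟨rfl, hmin⟩⟩)))
    · refine Or.inr (Or.inr (Or.inr (Or.inr (Or.inl ⟨rfl, ?_, i, hij, ?_⟩))))
      · show s.c i + 1 ≤ s.c j
        omega
      · show s.c i < s.c i + 1
        omega
  · push Not at hmin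
    obtain ⟨i', hi', hlt'⟩ := hmin
    refine ⟨(s.c i, s.ρ j - 1), ?_, (s.c i, s.ρ j), ?_, Or.inl ⟨rfl, Or.inl ?_⟩⟩
    · refine Or.inr (Or.inr (Or.inr (Or.inl ⟨rfl, ?_, j, hij, Or.inl ?_⟩)))
      · show s.ρ i ≤ s.ρ j - 1
        omega
      · show s.ρ j - 1 < s.ρ j
        omega
    · exact Or.inr (Or.inr (Or.inr (Or.inr (Or.inl ⟨rfl, hc.le, i', hi', s.c_mono _ _ hlt'⟩))))
    · show s.ρ j - 1 + 1 = s.ρ j
      omega

lemma Setup2.T_adjQ (s : Setup2 m X Rt) {P Q : Fin m → Fin m → Prop} (hQ : Page Q)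
    {i j : Fin m} (hij : Q i j) : ∃ p ∈ s.T P Q i, ∃ q ∈ s.T P Q j, gadj p q := by
  have hlt := hQ.1 i j hij
  have hc := s.c_mono _ _ hlt
  have hρ := s.ρ_mono _ _ hlt
  by_cases hmin : ∀ i', Q i' j → i ≤ i'
  · refine ⟨(s.c j, s.ρ i), ?_, (s.c j, s.ρ i + 1), ?_, Or.inl ⟨rfl, Or.inl rfl⟩⟩
    · exact Or.inr (Or.inr (Or.inr (Or.inr (Or.inr (Or.inl
        ⟨rfl, hc.le, j, hij, Or.inr ⟨rfl, hmin⟩⟩)))))
    · refine Or.inr (Or.inr (Or.inr (Or.inr (Or.inr (Or.inr ⟨rfl, ?_, i, hij, ?_⟩)))))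
      · show s.ρ i + 1 ≤ s.ρ j
        omega
      · show s.ρ i < s.ρ i + 1
        omega
  · push Not at hmin
    obtain ⟨i', hi', hlt'⟩ := hmin
    refine ⟨(s.c j - 1, s.ρ i), ?_, (s.c j, s.ρ i), ?_, Or.inr ⟨rfl, Or.inl ?_⟩⟩
    · refine Or.inr (Or.inr (Or.inr (Or.inr (Or.inr (Or.inl ⟨rfl, ?_, j, hij, Or.inl ?_⟩)))))
      · show s.c i ≤ s.c j - 1
        omega
      · show s.c j - 1 < s.c j
        omega
    · exact Or.inr (Or.inr (Or.inr (Or.inr (Or.inr (Or.inr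
        ⟨rfl, hρ.le, i', hi', s.ρ_mono _ _ hlt'⟩)))))
    · show s.c j - 1 + 1 = s.c j
      omega

lemma Setup2.T_box (s : Setup2 m X Rt) (P Q : Fin m → Fin m → Prop) (n : ℕ)
    (hn : ∀ i, s.c i < n ∧ s.ρ i < n) (i : Fin m) : ∀ p ∈ s.T P Q i, p.1 < n ∧ p.2 < n := by
  have h0 := hn i
  rintro ⟨x, y⟩ hp
  rcases hp with h | ⟨hi, h⟩ | ⟨hi, h⟩ | h | h | h | h
  · simp only at h ⊢; omega
  · simp only at h ⊢; omega
  · have := s.hk1 i hi
    simp only at h ⊢; omega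
  · obtain ⟨h1, h2, j, _, h3⟩ := h
    have := hn j
    simp only at h1 h2 h3 ⊢; omega
  · simp only at h ⊢; omega
  · obtain ⟨h1, h2, j, _, h3⟩ := h
    have := hn j
    simp only at h1 h2 h3 ⊢; omega
  · simp only at h ⊢; omega

end TH691.GM
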