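import Pool.Agent.TH691.GM.Main

/-!
# From a sweep of a plane drawing to a two-page graph (for MP_69d199_co)
-/

namespace TH691.GM

open Relation

/-- The combinatorial information of an upward sweep of a plane drawing of `K`: heights `y` of the
vertices, the left-to-right relation `prec w u w' u'` of the edges `w u` and `w' u'` (lower endpoints
first) and the relation `lf w u v` saying that the edge `w u` passes to the left of `v`. -/
structure Sweep {W : Type*} (K : SimpleGraph W) where
  y : W → ℝ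
  inj : Function.Injective y
  prec : W → W → W → W → Prop
  lf : W → W → W → Prop
  H1 : ∀ w u v w', K.Adj w u → y w < y v → y v < y u → K.Adj w' v → y w' < y v → lf w u v →
    prec w u w' v
  H2 : ∀ w u v w', K.Adj w u → y w < y v → y v < y u → K.Adj w' v → y w' < y v → ¬ lf w u v →
    prec w' v w u
  H3 : ∀ w u w' u' v, K.Adj w u → y w < y v → y v < y u → K.Adj w' u' → y w' < y v → y v < y u' →
    lf w u v → ¬ lf w' u' v → prec w u w' u'
  H5 : ∀ w u w' u' v, K.Adj w u → y w < y v → y v < y u → K.Adj w' u' → y w' < y v → y v < y u' →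
    prec w u w' u' → ¬ lf w u v → ¬ lf w' u' v
  H6 : ∀ w u v u', K.Adj w u → y w < y v → y v < y u → K.Adj v u' → y v < y u' →
    prec w u v u' → lf w u v
  H7 : ∀ w u v u', K.Adj w u → y w < y v → y v < y u → K.Adj v u' → y v < y u' →
    prec v u' w u → ¬ lf w u v

/-- The state of the construction after the vertices in `S` have been placed on the spine. -/
structure St {W : Type*} {K : SimpleGraph W} (s : Sweep K) (S : Finset W) where
  Sp : Finset ℚ
  lab : ℚ → Option W
  P1 : ℚ → ℚ → Prop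
  P2 : ℚ → ℚ → Prop
  port : W → W → ℚ
  p0 : ℚ
  card_le : Sp.card ≤ 2 * S.card + 1
  p0_mem : p0 ∈ Sp
  p0_le : ∀ x ∈ Sp, p0 ≤ x
  h1 : ∀ a b, P1 a b → a < b ∧ a ∈ Sp ∧ b ∈ Sp
  h2 : ∀ a b, P2 a b → a < b ∧ a ∈ Sp ∧ b ∈ Sp
  nc1 : ∀ a b c d, P1 a b → P1 c d → a < c → c < b → b < d → False
  nc2 : ∀ a b c d, P2 a b → P2 c d → a < c → c < b → b < d → False
  labS : ∀ x ∈ Sp, ∀ w, lab x = some w → w ∈ S
  conn : ∀ w ∈ S, Cn (fun a b => P2 a b ∨ P2 b a) {x | x ∈ Sp ∧ lab x = some w}
  edge : ∀ w ∈ S, ∀ u ∈ S, K.Adj w u → ∃ a ∈ Sp, ∃ b ∈ Sp,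
    lab a = some w ∧ lab b = some u ∧ (P1 a b ∨ P1 b a)
  port_mem : ∀ w ∈ S, ∀ u, u ∉ S → K.Adj w u → port w u ∈ Sp ∧ lab (port w u) = some w
  port_vis : ∀ w ∈ S, ∀ u, u ∉ S → K.Adj w u → ∀ a b, P1 a b → a < port w u → port w u < b → False
  port_mono : ∀ w ∈ S, ∀ u, u ∉ S → K.Adj w u → ∀ w' ∈ S, ∀ u', u' ∉ S → K.Adj w' u' →
    s.prec w u w' u' → port w u ≤ port w' u'

variable {W : Type*} {K : SimpleGraph W} {s : Sweep K}

/-- choice of the place of the next vertex on the spine -/
lemma exists_place {S : Finset W} (st : St s S) (v : W) (hv : v ∉ S)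
    (hlt : ∀ w ∈ S, s.y w < s.y v) (hdc : ∀ w, s.y w < s.y v → w ∈ S) :
    ∃ p ∈ st.Sp, (∀ a b, st.P1 a b → a < p → p < b → False) ∧
      (∀ w ∈ S, ∀ u, u ∉ S → u ≠ v → K.Adj w u → s.lf w u v → st.port w u ≤ p) ∧
      (∀ w ∈ S, ∀ u, u ∉ S → u ≠ v → K.Adj w u → ¬ s.lf w u v → p ≤ st.port w u) ∧
      (∀ w ∈ S, K.Adj w v → p ≤ st.port w v) := by
  classical
  have hup : ∀ u, u ∉ S → u ≠ v → s.y v < s.y u := by
    intro u hu huv
    rcases lt_trichotomy (s.y u) (s.y v) with h | h | h
    · exact absurd (hdc u h) hu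
    · exact absurd (s.inj h) huv
    · exact h
  by_cases hD : ∃ w ∈ S, K.Adj w v
  · -- the down-neighbours
    obtain ⟨w0, hw0, hmin⟩ : ∃ w0 ∈ S.filter (fun w => K.Adj w v),
        ∀ w ∈ S.filter (fun w => K.Adj w v), st.port w0 v ≤ st.port w v := by
      refine Finset.exists_min_image _ (fun w => st.port w v) ?_
      obtain ⟨w, hw, hwv⟩ := hD
      exact ⟨w, Finset.mem_filter.mpr ⟨hw, hwv⟩⟩
    rw [Finset.mem_filter] at hw0
    refine ⟨st.port w0 v, (st.port_mem w0 hw0.1 v hv hw0.2).1,
      st.port_vis w0 hw0.1 v hv hw0.2, ?_, ?_, ?_⟩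
    · intro w hw u hu huv hadj hl
      exact st.port_mono w hw u hu hadj w0 hw0.1 v hv hw0.2
        (s.H1 w u v w0 hadj (hlt w hw) (hup u hu huv) hw0.2 (hlt w0 hw0.1) hl)
    · intro w hw u hu huv hadj hl
      exact st.port_mono w0 hw0.1 v hv hw0.2 w hw u hu hadj
        (s.H2 w u v w0 hadj (hlt w hw) (hup u hu huv) hw0.2 (hlt w0 hw0.1) hl)
    · intro w hw hadj
      exact hmin w (Finset.mem_filter.mpr ⟨hw, hadj⟩)
  · push Not at hD
    by_cases hL : ∃ w ∈ S, ∃ u, u ∉ S ∧ u ≠ v ∧ K.Adj w u ∧ s.lf w u v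
    · -- the rightmost port to the left of `v`
      obtain ⟨x, hx, hmax⟩ : ∃ x ∈ st.Sp.filter (fun x => ∃ w ∈ S, ∃ u, u ∉ S ∧ u ≠ v ∧ K.Adj w u ∧
            s.lf w u v ∧ st.port w u = x),
          ∀ x' ∈ st.Sp.filter (fun x => ∃ w ∈ S, ∃ u, u ∉ S ∧ u ≠ v ∧ K.Adj w u ∧
            s.lf w u v ∧ st.port w u = x), x' ≤ x := by
        refine Finset.exists_max_image _ (fun x => x) ?_
        obtain ⟨w, hw, u, hu, huv, hadj, hl⟩ := hL
        exact ⟨st.port w u, Finset.mem_filter.mpr
          ⟨(st.port_mem w hw u hu hadj).1, w, hw, u, hu, huv, hadj, hl, rfl⟩⟩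
      rw [Finset.mem_filter] at hx
      obtain ⟨hx0, w0, hw0, u0, hu0, hu0v, hadj0, hl0, hport0⟩ := hx
      refine ⟨x, hx0, ?_, ?_, ?_, ?_⟩
      · rw [← hport0]; exact st.port_vis w0 hw0 u0 hu0 hadj0
      · intro w hw u hu huv hadj hl
        exact hmax _ (Finset.mem_filter.mpr
          ⟨(st.port_mem w hw u hu hadj).1, w, hw, u, hu, huv, hadj, hl, rfl⟩)
      · intro w hw u hu huv hadj hl
        rw [← hport0]
        exact st.port_mono w0 hw0 u0 hu0 hadj0 w hw u hu hadj
          (s.H3 w0 u0 w u v hadj0 (hlt w0 hw0) (hup u0 hu0 hu0v) hadj (hlt w hw) (hup u hu huv)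
            hl0 hl)
      · intro w hw hadj
        exact absurd hadj (hD w hw)
    · push Not at hL
      refine ⟨st.p0, st.p0_mem, ?_, ?_, ?_, ?_⟩
      · intro a b hab ha _
        exact absurd (st.p0_le a (st.h1 a b hab).2.1) (not_le.mpr ha)
      · intro w hw u hu huv hadj hl
        exact absurd hl (hL w hw u hu huv hadj)
      · intro w hw u hu huv hadj hl
        exact st.p0_le _ (st.port_mem w hw u hu hadj).1
      · intro w hw hadj
        exact absurd hadj (hD w hw)

lemma exists_gap (Sp : Finset ℚ) (p : ℚ) : ∃ q, p < q ∧ ∀ x ∈ Sp, p < x → q < x := by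
  classical
  by_cases h : (Sp.filter (fun x => p < x)).Nonempty
  · obtain ⟨m, hm, hmin⟩ := Finset.exists_min_image _ (fun x => x) h
    rw [Finset.mem_filter] at hm
    refine ⟨(p + m) / 2, by linarith [hm.2], ?_⟩
    intro x hx hpx
    have := hmin x (Finset.mem_filter.mpr ⟨hx, hpx⟩)
    have := hm.2
    linarith
  · refine ⟨p + 1, by linarith, ?_⟩
    intro x hx hpx
    exact absurd ⟨x, Finset.mem_filter.mpr ⟨hx, hpx⟩⟩ h

lemma RTG_mono2 {α : Type*} {R R' : α → α → Prop} {S T : Set α} (hR : ∀ a b, R a b → R' a b)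
    (h : S ⊆ T) {a b : α} (hab : ReflTransGen (RIn R S) a b) : ReflTransGen (RIn R' T) a b := by
  induction hab with
  | refl => exact ReflTransGen.refl
  | tail _ hbc ih => exact ih.tail ⟨h hbc.1, h hbc.2.1, hR _ _ hbc.2.2⟩

/-- one step of the construction -/
lemma St.step {S : Finset W} (st : St s S) (v : W) (hv : v ∉ S)
    (hlt : ∀ w ∈ S, s.y w < s.y v) (hdc : ∀ w, s.y w < s.y v → w ∈ S) [DecidableEq W] :
    Nonempty (St s (insert v S)) := by
  classical
  have hup : ∀ u, u ∉ insert v S → s.y v < s.y u ∧ u ∉ S ∧ u ≠ v := by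
    intro u hu
    rw [Finset.mem_insert, not_or] at hu
    refine ⟨?_, hu.2, hu.1⟩
    rcases lt_trichotomy (s.y u) (s.y v) with h | h | h
    · exact absurd (hdc u h) hu.2
    · exact absurd (s.inj h) hu.1
    · exact h
  obtain ⟨p, hp, hpv, hpl, hpr, hpd⟩ := exists_place st v hv hlt hdc
  obtain ⟨q, hpq, hq⟩ := exists_gap st.Sp p
  set vh : ℚ := (p + q) / 2 with hvh
  have hpvh : p < vh := by rw [hvh]; linarith
  have hvhq : vh < q := by rw [hvh]; linarith
  clear_value vh
  have hqS : q ∉ st.Sp := fun h => lt_irrefl _ (hq q h hpq)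
  have hvS : vh ∉ st.Sp := fun h => lt_asymm (hq vh h hpvh) hvhq
  -- positions of old points
  have hold : ∀ x ∈ st.Sp, x ≤ p ∨ q < x := by
    intro x hx
    rcases le_or_gt x p with h | h
    · exact Or.inl h
    · exact Or.inr (hq x hx h)
  set lab' : ℚ → Option W := fun x => if x = vh then some v else if x = q then st.lab p else st.lab x
    with hlab'
  have lab_old : ∀ x ∈ st.Sp, lab' x = st.lab x := by
    intro x hx
    have h1 : x ≠ vh := fun h => hvS (h ▸ hx)
    have h2 : x ≠ q := fun h => hqS (h ▸ hx)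
    simp [hlab', h1, h2]
  have lab_v : lab' vh = some v := by simp [hlab']
  have lab_q : lab' q = st.lab p := by
    have : q ≠ vh := hvhq.ne'
    simp [hlab', this]
  set P1' : ℚ → ℚ → Prop := fun a b => (st.P1 a b ∧ a ≠ p) ∨ (a = q ∧ st.P1 p b) ∨
    (a = p ∧ b = vh ∧ ∃ w ∈ S, K.Adj w v) ∨
    (a = vh ∧ ∃ w ∈ S, K.Adj w v ∧ b = st.port w v ∧ b ≠ p) with hP1'
  set port' : W → W → ℚ := fun w u => if w = v then vh else
    if st.port w u = p ∧ ¬ s.lf w u v then q else st.port w u with hport'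
  have port_v : ∀ u, port' v u = vh := by intro u; simp [hport']
  have port_old : ∀ w ∈ S, ∀ u, (port' w u = q ∧ st.port w u = p ∧ ¬ s.lf w u v) ∨
      (port' w u = st.port w u ∧ (st.port w u = p → s.lf w u v)) := by
    intro w hw u
    have hwv : w ≠ v := fun h => hv (h ▸ hw)
    by_cases h : st.port w u = p ∧ ¬ s.lf w u v
    · left; simp [hport', hwv, h]
    · right
      refine ⟨by simp only [hport']; rw [if_neg hwv, if_neg h], ?_⟩
      intro h2
      by_contra h3
      exact h ⟨h2, h3⟩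
  have hDq : ∀ w ∈ S, K.Adj w v → st.port w v ≠ p → q < st.port w v := by
    intro w hw hadj hne
    have h1 := hpd w hw hadj
    rcases hold _ (st.port_mem w hw v hv hadj).1 with h | h
    · exact absurd (le_antisymm h h1) hne
    · exact h
  refine ⟨{ Sp := insert vh (insert q st.Sp), lab := lab', P1 := P1',
            P2 := fun a b => st.P2 a b ∨ (a = p ∧ b = q), port := port', p0 := st.p0,
            card_le := ?_, p0_mem := ?_, p0_le := ?_, h1 := ?_, h2 := ?_, nc1 := ?_, nc2 := ?_,
            labS := ?_, conn := ?_, edge := ?_, port_mem := ?_, port_vis := ?_,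
            port_mono := ?_ }⟩
  · -- card_le
    have h1 := Finset.card_insert_le vh (insert q st.Sp)
    have h2 := Finset.card_insert_le q st.Sp
    have h3 := st.card_le
    rw [Finset.card_insert_of_notMem hv]
    omega
  · simp [st.p0_mem]
  · intro x hx
    rw [Finset.mem_insert, Finset.mem_insert] at hx
    have h0 := st.p0_le p hp
    rcases hx with rfl | rfl | hx
    · linarith
    · linarith
    · exact st.p0_le x hx
  · -- h1
    intro a b hab
    rw [hP1'] at hab
    simp only [Finset.mem_insert]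
    rcases hab with ⟨h, _⟩ | ⟨rfl, h⟩ | ⟨rfl, rfl, _⟩ | ⟨rfl, w, hw, hadj, rfl, hb⟩
    · obtain ⟨h1, h2, h3⟩ := st.h1 a b h
      exact ⟨h1, Or.inr (Or.inr h2), Or.inr (Or.inr h3)⟩
    · obtain ⟨h1, h2, h3⟩ := st.h1 p b h
      exact ⟨hq b h3 h1, Or.inr (Or.inl rfl), Or.inr (Or.inr h3)⟩
    · exact ⟨hpvh, Or.inr (Or.inr hp), Or.inl rfl⟩
    · exact ⟨hvhq.trans (hDq w hw hadj hb), Or.inl rfl,
        Or.inr (Or.inr (st.port_mem w hw v hv hadj).1)⟩
  · -- h2
    intro a b hab
    simp only [Finset.mem_insert]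
    rcases hab with h | ⟨rfl, rfl⟩
    · obtain ⟨h1, h2, h3⟩ := st.h2 a b h
      exact ⟨h1, Or.inr (Or.inr h2), Or.inr (Or.inr h3)⟩
    · exact ⟨hpq, Or.inr (Or.inr hp), Or.inr (Or.inl rfl)⟩
  · -- nc1
    intro a b c d hab hcd h1 h2 h3
    rw [hP1'] at hab hcd
    rcases hab with ⟨hab, hap⟩ | ⟨rfl, hab⟩ | ⟨rfl, rfl, _⟩ | ⟨rfl, w, hw, hadj, rfl, hb⟩
    · obtain ⟨_, haS, hbS⟩ := st.h1 a b hab
      rcases hcd with ⟨hcd, hcp⟩ | ⟨rfl, hcd⟩ | ⟨rfl, rfl, _⟩ | ⟨rfl, w', hw', hadj', rfl, hd⟩
      · exact st.nc1 a b c d hab hcd h1 h2 h3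
      · -- c = q
        have ha : a < p := by
          rcases hold a haS with h | h
          · exact lt_of_le_of_ne h hap
          · exact absurd h1 (not_lt.mpr h.le)
        exact st.nc1 a b p d hab hcd ha (hpq.trans h2) h3
      · -- c = p, d = vh
        rcases hold b hbS with h | h
        · exact absurd h2 (not_lt.mpr h)
        · exact absurd h3 (not_lt.mpr (hvhq.trans h).le)
      · -- c = vh
        have ha : a < p := by
          rcases hold a haS with h | h
          · exact lt_of_le_of_ne h hap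
          · exact absurd (hvhq.trans h) (not_lt.mpr h1.le)
        exact hpv a b hab ha (hpvh.trans h2)
    · -- a = q
      obtain ⟨_, _, hbS⟩ := st.h1 p b hab
      rcases hcd with ⟨hcd, hcp⟩ | ⟨rfl, hcd⟩ | ⟨rfl, rfl, _⟩ | ⟨rfl, w', hw', hadj', rfl, hd⟩
      · exact st.nc1 p b c d hab hcd (hpq.trans h1) h2 h3
      · exact absurd h1 (lt_irrefl _)
      · exact absurd h1 (not_lt.mpr hpq.le)
      · exact absurd h1 (not_lt.mpr hvhq.le)
    · -- a = p, b = vh
      rcases hcd with ⟨hcd, hcp⟩ | ⟨rfl, hcd⟩ | ⟨rfl, rfl, _⟩ | ⟨rfl, w', hw', hadj', rfl, hd⟩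
      · obtain ⟨_, hcS, _⟩ := st.h1 c d hcd
        rcases hold c hcS with h | h
        · exact absurd h1 (not_lt.mpr h)
        · exact absurd h2 (not_lt.mpr (hvhq.trans h).le)
      · exact absurd h2 (not_lt.mpr hvhq.le)
      · exact absurd h1 (lt_irrefl _)
      · exact absurd h2 (lt_irrefl _)
    · -- a = vh, b = port
      rcases hcd with ⟨hcd, hcp⟩ | ⟨rfl, hcd⟩ | ⟨rfl, rfl, _⟩ | ⟨rfl, w', hw', hadj', rfl, hd⟩
      · exact st.port_vis w hw v hv hadj c d hcd h2 h3
      · exact st.port_vis w hw v hv hadj p d hcd (hpq.trans h2) h3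
      · exact absurd h1 (not_lt.mpr hpvh.le)
      · exact absurd h1 (lt_irrefl _)
  · -- nc2
    intro a b c d hab hcd h1 h2 h3
    rcases hab with hab | ⟨rfl, rfl⟩
    · obtain ⟨_, haS, hbS⟩ := st.h2 a b hab
      rcases hcd with hcd | ⟨rfl, rfl⟩
      · exact st.nc2 a b c d hab hcd h1 h2 h3
      · rcases hold b hbS with h | h
        · exact absurd h2 (not_lt.mpr h)
        · exact absurd h3 (not_lt.mpr h.le)
    · rcases hcd with hcd | ⟨rfl, rfl⟩
      · obtain ⟨_, hcS, hdS⟩ := st.h2 c d hcd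
        rcases hold c hcS with h | h
        · exact absurd h1 (not_lt.mpr h)
        · exact absurd h2 (not_lt.mpr h.le)
      · exact absurd h1 (lt_irrefl _)
  · -- labS
    intro x hx w hw
    rw [Finset.mem_insert, Finset.mem_insert] at hx
    rw [Finset.mem_insert]
    rcases hx with rfl | rfl | hx
    · rw [lab_v] at hw
      left
      exact (Option.some.inj hw).symm
    · rw [lab_q] at hw
      right
      exact st.labS p hp w hw
    · rw [lab_old x hx] at hw
      right
      exact st.labS x hx w hw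
  · -- conn
    intro w hw
    rw [Finset.mem_insert] at hw
    rcases hw with rfl | hw
    · -- the new vertex
      refine ⟨⟨vh, by simp, lab_v⟩, ?_⟩
      have hsing : ∀ x ∈ ({x | x ∈ insert vh (insert q st.Sp) ∧ lab' x = some w} : Set ℚ),
          x = vh := by
        rintro x ⟨hx, hx'⟩
        rw [Finset.mem_insert, Finset.mem_insert] at hx
        rcases hx with rfl | rfl | hx
        · rfl
        · rw [lab_q] at hx'
          exact absurd (st.labS p hp w hx') hv
        · rw [lab_old x hx] at hx'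
          exact absurd (st.labS x hx w hx') hv
      intro x hx x' hx'
      rw [hsing x hx, hsing x' hx']
    · obtain ⟨⟨x0, hx0, hx0'⟩, hc⟩ := st.conn w hw
      have hsub : {x | x ∈ st.Sp ∧ st.lab x = some w} ⊆
          {x | x ∈ insert vh (insert q st.Sp) ∧ lab' x = some w} := by
        rintro x ⟨hx, hx'⟩
        refine ⟨by simp [hx], ?_⟩
        rw [lab_old x hx]; exact hx'
      refine Cn_of_base (b := x0) ?_ (hsub ⟨hx0, hx0'⟩) ?_
      · intro a b h
        exact h.symm
      · rintro x ⟨hx, hx'⟩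
        rw [Finset.mem_insert, Finset.mem_insert] at hx
        rcases hx with rfl | rfl | hx
        · rw [lab_v] at hx'
          exact absurd (Option.some.inj hx') (fun h => hv (h ▸ hw))
        · rw [lab_q] at hx'
          have h1 := RTG_mono2 (R' := fun a b => (st.P2 a b ∨ (a = p ∧ b = x)) ∨
            (st.P2 b a ∨ (b = p ∧ a = x))) (fun a b h => h.imp Or.inl Or.inl) hsub
            (hc x0 ⟨hx0, hx0'⟩ p ⟨hp, hx'⟩)
          refine h1.tail ⟨hsub ⟨hp, hx'⟩, ⟨by simp, by rw [lab_q]; exact hx'⟩, ?_⟩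
          exact Or.inl (Or.inr ⟨rfl, rfl⟩)
        · rw [lab_old x hx] at hx'
          exact RTG_mono2 (fun a b h => h.imp Or.inl Or.inl) hsub
            (hc x0 ⟨hx0, hx0'⟩ x ⟨hx, hx'⟩)
  · -- edge
    have key : ∀ w ∈ S, K.Adj w v → ∃ a ∈ insert vh (insert q st.Sp),
        ∃ b ∈ insert vh (insert q st.Sp), lab' a = some w ∧ lab' b = some v ∧
          (P1' a b ∨ P1' b a) := by
      intro w hw hadj
      obtain ⟨h1, h2⟩ := st.port_mem w hw v hv hadj
      by_cases h : st.port w v = p
      · refine ⟨p, by simp [hp], vh, by simp, ?_, lab_v, Or.inl ?_⟩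
        · rw [lab_old p hp, ← h]; exact h2
        · exact Or.inr (Or.inr (Or.inl ⟨rfl, rfl, w, hw, hadj⟩))
      · refine ⟨st.port w v, by simp [h1], vh, by simp, ?_, lab_v, Or.inr ?_⟩
        · rw [lab_old _ h1]; exact h2
        · exact Or.inr (Or.inr (Or.inr ⟨rfl, w, hw, hadj, rfl, h⟩))
    have move : ∀ a b, st.P1 a b → ∃ a' ∈ insert vh (insert q st.Sp), lab' a' = st.lab a ∧
        P1' a' b := by
      intro a b hab
      obtain ⟨_, haS, hbS⟩ := st.h1 a b hab
      by_cases h : a = p
      · subst h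
        exact ⟨q, by simp, lab_q, Or.inr (Or.inl ⟨rfl, hab⟩)⟩
      · exact ⟨a, by simp [haS], lab_old a haS, Or.inl ⟨hab, h⟩⟩
    intro w hw u hu hadj
    rw [Finset.mem_insert] at hw hu
    rcases hw with rfl | hw
    · rcases hu with rfl | hu
      · exact absurd hadj (K.loopless.irrefl _)
      · obtain ⟨a, ha, b, hb, h1, h2, h3⟩ := key u hu hadj.symm
        exact ⟨b, hb, a, ha, h2, h1, h3.symm⟩
    · rcases hu with rfl | hu
      · exact key w hw hadj
      · obtain ⟨a, ha, b, hb, h1, h2, h3⟩ := st.edge w hw u hu hadj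
        rcases h3 with h3 | h3
        · obtain ⟨a', ha', h4, h5⟩ := move a b h3
          exact ⟨a', ha', b, by simp [hb], by rw [h4, h1], by rw [lab_old b hb, h2], Or.inl h5⟩
        · obtain ⟨b', hb', h4, h5⟩ := move b a h3
          exact ⟨a, by simp [ha], b', hb', by rw [lab_old a ha, h1], by rw [h4, h2], Or.inr h5⟩
  · -- port_mem
    intro w hw u hu hadj
    obtain ⟨hu1, hu2, hu3⟩ := hup u hu
    rw [Finset.mem_insert] at hw
    rcases hw with rfl | hw
    · rw [port_v]; exact ⟨by simp, lab_v⟩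
    · obtain ⟨h1, h2⟩ := st.port_mem w hw u hu2 hadj
      rcases port_old w hw u with ⟨h3, h4, _⟩ | ⟨h3, _⟩
      · rw [h3]
        refine ⟨by simp, ?_⟩
        rw [lab_q, ← h4]; exact h2
      · rw [h3]
        refine ⟨by simp [h1], ?_⟩
        rw [lab_old _ h1]; exact h2
  · -- port_vis
    intro w hw u hu hadj a b hab h1 h2
    obtain ⟨hu1, hu2, hu3⟩ := hup u hu
    rw [Finset.mem_insert] at hw
    rw [hP1'] at hab
    rcases hw with rfl | hw
    · rw [port_v] at h1 h2
      rcases hab with ⟨hab, hap⟩ | ⟨rfl, hab⟩ | ⟨rfl, rfl, _⟩ | ⟨rfl, w', hw', hadj', rfl, hb⟩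
      · obtain ⟨_, haS, hbS⟩ := st.h1 a b hab
        have ha : a < p := by
          rcases hold a haS with h | h
          · exact lt_of_le_of_ne h hap
          · exact absurd (hvhq.trans h) (not_lt.mpr h1.le)
        exact hpv a b hab ha (hpvh.trans h2)
      · exact absurd h1 (not_lt.mpr hvhq.le)
      · exact absurd h2 (lt_irrefl _)
      · exact absurd h1 (lt_irrefl _)
    · obtain ⟨hm1, hm2⟩ := st.port_mem w hw u hu2 hadj
      have hvis := st.port_vis w hw u hu2 hadj
      rcases port_old w hw u with ⟨h3, h4, h5⟩ | ⟨h3, h5⟩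
      · -- moved port
        rw [h3] at h1 h2
        rcases hab with ⟨hab, hap⟩ | ⟨rfl, hab⟩ | ⟨rfl, rfl, _⟩ | ⟨rfl, w', hw', hadj', rfl, hb⟩
        · obtain ⟨_, haS, hbS⟩ := st.h1 a b hab
          have ha : a < p := by
            rcases hold a haS with h | h
            · exact lt_of_le_of_ne h hap
            · exact absurd h1 (not_lt.mpr h.le)
          exact hpv a b hab ha (hpq.trans h2)
        · exact absurd h1 (lt_irrefl _)
        · exact absurd h2 (not_lt.mpr hvhq.le)
        · have h6 := st.port_mono w' hw' v hv hadj' w hw u hu2 hadj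
            (s.H2 w u v w' hadj (hlt w hw) hu1 hadj' (hlt w' hw') h5)
          rw [h4] at h6
          exact absurd (hpq.trans h2) (not_lt.mpr h6)
      · rw [h3] at h1 h2
        rcases hab with ⟨hab, hap⟩ | ⟨rfl, hab⟩ | ⟨rfl, rfl, _⟩ | ⟨rfl, w', hw', hadj', rfl, hb⟩
        · exact hvis a b hab h1 h2
        · exact hvis p b hab (hpq.trans h1) h2
        · rcases hold _ hm1 with h | h
          · exact absurd h1 (not_lt.mpr h)
          · exact absurd h2 (not_lt.mpr (hvhq.trans h).le)
        · by_cases hl : s.lf w u v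
          · have h6 := hpl w hw u hu2 hu3 hadj hl
            exact absurd (hpvh.trans h1) (not_lt.mpr h6)
          · have h6 := st.port_mono w' hw' v hv hadj' w hw u hu2 hadj
              (s.H2 w u v w' hadj (hlt w hw) hu1 hadj' (hlt w' hw') hl)
            exact absurd h2 (not_lt.mpr h6)
  · -- port_mono
    intro w hw u hu hadj w' hw' u' hu' hadj' hprec
    obtain ⟨hu1, hu2, hu3⟩ := hup u hu
    obtain ⟨hu1', hu2', hu3'⟩ := hup u' hu'
    rw [Finset.mem_insert] at hw hw'
    rcases hw with rfl | hw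
    · rw [port_v]
      rcases hw' with rfl | hw'
      · rw [port_v]
      · have hl := s.H7 w' u' w u hadj' (hlt w' hw') hu1' hadj hu1 hprec
        obtain ⟨hm1, hm2⟩ := st.port_mem w' hw' u' hu2' hadj'
        have h6 := hpr w' hw' u' hu2' hu3' hadj' hl
        rcases port_old w' hw' u' with ⟨h3, h4, h5⟩ | ⟨h3, h5⟩
        · rw [h3]; exact hvhq.le
        · rw [h3]
          rcases hold _ hm1 with h | h
          · exact absurd (h5 (le_antisymm h h6)) hl
          · exact (hvhq.trans h).le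
    · rcases hw' with rfl | hw'
      · rw [port_v]
        have hl := s.H6 w u w' u' hadj (hlt w hw) hu1 hadj' hu1' hprec
        have h6 := hpl w hw u hu2 hu3 hadj hl
        rcases port_old w hw u with ⟨h3, h4, h5⟩ | ⟨h3, h5⟩
        · exact absurd hl h5
        · rw [h3]; exact h6.trans hpvh.le
      · have hmono := st.port_mono w hw u hu2 hadj w' hw' u' hu2' hadj' hprec
        obtain ⟨hm1, hm2⟩ := st.port_mem w hw u hu2 hadj
        obtain ⟨hm1', hm2'⟩ := st.port_mem w' hw' u' hu2' hadj'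
        rcases port_old w hw u with ⟨h3, h4, h5⟩ | ⟨h3, h5⟩
        · have hl' := s.H5 w u w' u' v hadj (hlt w hw) hu1 hadj' (hlt w' hw') hu1' hprec h5
          rw [h3]
          rcases port_old w' hw' u' with ⟨h3', h4', h5'⟩ | ⟨h3', h5'⟩
          · rw [h3']
          · rw [h3']
            rw [h4] at hmono
            rcases hold _ hm1' with h | h
            · exact absurd (h5' (le_antisymm h hmono)) hl'
            · exact h.le
        · rw [h3]
          rcases port_old w' hw' u' with ⟨h3', h4', h5'⟩ | ⟨h3', h5'⟩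
          · rw [h3']
            rw [h4'] at hmono
            exact hmono.trans hpq.le
          · rw [h3']; exact hmono

/-- the initial state -/
def St.init (s : Sweep K) : St s (∅ : Finset W) where
  Sp := {0}
  lab := fun _ => none
  P1 := fun _ _ => False
  P2 := fun _ _ => False
  port := fun _ _ => 0
  p0 := 0
  card_le := by simp
  p0_mem := by simp
  p0_le := by intro x hx; simp at hx; exact hx.ge
  h1 := fun _ _ h => h.elim
  h2 := fun _ _ h => h.elim
  nc1 := fun _ _ _ _ h => h.elim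
  nc2 := fun _ _ _ _ h => h.elim
  labS := fun _ _ _ h => by simp at h
  conn := fun w hw => by simp at hw
  edge := fun w hw => by simp at hw
  port_mem := fun w hw => by simp at hw
  port_vis := fun w hw => by simp at hw
  port_mono := fun w hw => by simp at hw

lemma St.exists_univ [Fintype W] [DecidableEq W] (s : Sweep K) :
    Nonempty (St s (Finset.univ : Finset W)) := by
  have key : ∀ S : Finset W, (∀ u ∈ S, ∀ w, s.y w < s.y u → w ∈ S) → Nonempty (St s S) := by
    intro S
    induction S using Finset.induction_on_max_value s.y with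
    | empty => intro _; exact ⟨St.init s⟩
    | insert v S hv hmax ih =>
      intro hdc
      have hlt : ∀ w ∈ S, s.y w < s.y v := by
        intro w hw
        refine lt_of_le_of_ne (hmax w hw) (fun h => hv ?_)
        rw [← s.inj h]; exact hw
      have hdcS : ∀ u ∈ S, ∀ w, s.y w < s.y u → w ∈ S := by
        intro u hu w hw
        rcases Finset.mem_insert.mp (hdc u (Finset.mem_insert_of_mem hu) w hw) with h | h
        · subst h
          exact absurd (hlt u hu) (not_lt.mpr hw.le)
        · exact h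
      obtain ⟨st⟩ := ih hdcS
      refine st.step v hv hlt ?_
      intro w hw
      rcases Finset.mem_insert.mp (hdc v (Finset.mem_insert_self v S) w hw) with h | h
      · subst h; exact absurd hw (lt_irrefl _)
      · exact h
  exact key Finset.univ (fun _ _ _ _ => Finset.mem_univ _)

/-- A graph with a sweep is a minor of a two-page graph with at most `2 |W| + 1` spine vertices. -/
theorem twoPage_of_sweep [Fintype W] (s : Sweep K) :
    ∃ (m : ℕ) (H : SimpleGraph (Fin m)), m ≤ 2 * Fintype.card W + 1 ∧ TwoPage H ∧ IsMinor K H := by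
  classical
  obtain ⟨st⟩ := St.exists_univ s
  let e := st.Sp.orderIsoOfFin (k := st.Sp.card) rfl
  let f : Fin st.Sp.card → ℚ := fun i => (e i : ℚ)
  have hf : StrictMono f := fun i j hij => e.strictMono hij
  have hfS : ∀ i, f i ∈ st.Sp := fun i => (e i).2
  have hfsurj : ∀ x ∈ st.Sp, ∃ i, f i = x := by
    intro x hx
    refine ⟨e.symm ⟨x, hx⟩, ?_⟩
    show ((e (e.symm ⟨x, hx⟩) : {x // x ∈ st.Sp}) : ℚ) = x
    rw [e.apply_symm_apply]
  let H : SimpleGraph (Fin st.Sp.card) :=
    { Adj := fun i j => (st.P1 (f i) (f j) ∨ st.P1 (f j) (f i)) ∨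
        (st.P2 (f i) (f j) ∨ st.P2 (f j) (f i))
      symm := ⟨fun i j h => h.imp Or.symm Or.symm⟩
      loopless := ⟨fun i h => by
        rcases h with (h | h) | (h | h)
        · exact lt_irrefl _ (st.h1 _ _ h).1
        · exact lt_irrefl _ (st.h1 _ _ h).1
        · exact lt_irrefl _ (st.h2 _ _ h).1
        · exact lt_irrefl _ (st.h2 _ _ h).1⟩ }
  refine ⟨st.Sp.card, H, ?_, ?_, ?_⟩
  · have := st.card_le
    rwa [Finset.card_univ] at this
  · refine ⟨fun i j => st.P1 (f i) (f j), fun i j => st.P2 (f i) (f j), ?_, ?_, ?_⟩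
    · intro i k j l h1 h2 h3 h
      exact st.nc1 _ _ _ _ h.1 h.2 (hf h1) (hf h2) (hf h3)
    · intro i k j l h1 h2 h3 h
      exact st.nc2 _ _ _ _ h.1 h.2 (hf h1) (hf h2) (hf h3)
    · intro i j hij h
      rcases h with (h | h) | (h | h)
      · exact Or.inl h
      · exact absurd (st.h1 _ _ h).1 (not_lt.mpr (hf hij).le)
      · exact Or.inr h
      · exact absurd (st.h2 _ _ h).1 (not_lt.mpr (hf hij).le)
  · refine ⟨fun w => {i | st.lab (f i) = some w}, ?_, ?_, ?_⟩
    · intro w
      rw [connected_iff_Cn]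
      obtain ⟨⟨x0, hx0, hx0'⟩, hc⟩ := st.conn w (Finset.mem_univ w)
      obtain ⟨i0, hi0⟩ := hfsurj x0 hx0
      refine ⟨⟨i0, by show st.lab (f i0) = some w; rw [hi0]; exact hx0'⟩, ?_⟩
      intro i hi j hj
      have h1 := hc (f i) ⟨hfS i, hi⟩ (f j) ⟨hfS j, hj⟩
      have key : ∀ y, ReflTransGen (RIn (fun a b => st.P2 a b ∨ st.P2 b a)
          {x | x ∈ st.Sp ∧ st.lab x = some w}) (f i) y → ∀ k, f k = y →
          ReflTransGen (RIn H.Adj {i | st.lab (f i) = some w}) i k := by
        intro y hy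
        induction hy with
        | refl =>
          intro k hk
          have := hf.injective hk
          subst this
          exact ReflTransGen.refl
        | tail hab hbc ih =>
          rename_i b c
          intro k hk
          obtain ⟨k', hk'⟩ := hfsurj b hbc.1.1
          refine (ih k' hk').tail ⟨?_, ?_, Or.inr ?_⟩
          · show st.lab (f k') = some w
            rw [hk']; exact hbc.1.2
          · show st.lab (f k) = some w
            rw [hk]; exact hbc.2.1.2
          · rw [hk', hk]; exact hbc.2.2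
      exact key (f j) h1 j rfl
    · intro w w' hne
      rw [Set.disjoint_left]
      intro i hi hi'
      apply hne
      have h1 : st.lab (f i) = some w := hi
      have h2 : st.lab (f i) = some w' := hi'
      rw [h1] at h2
      exact Option.some.inj h2
    · intro w w' hadj
      obtain ⟨a, ha, b, hb, h1, h2, h3⟩ := st.edge w (Finset.mem_univ w) w' (Finset.mem_univ w') hadj
      obtain ⟨i, hi⟩ := hfsurj a ha
      obtain ⟨j, hj⟩ := hfsurj b hb
      refine ⟨i, ?_, j, ?_, Or.inl ?_⟩
      · show st.lab (f i) = some w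
        rw [hi]; exact h1
      · show st.lab (f j) = some w'
        rw [hj]; exact h2
      · rw [hi, hj]; exact h3

end TH691.GM
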